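import Pool.Agent.Helper25.DY.IntF

/-!
# Exterior clauses of the mountain family
-/

namespace Pool.Agent.Helper25.DY

open Set Pool.Agent.Helper67.PY Pool.Agent.Helper67.DY

theorem right_cond {j r i b : ℕ} {px : ℝ} (hi : i < 11 * (j + r + 1) + 5)
    (hlt : hh (j + r + 1) i < hh (j + r + 1) b) (hD : 0 < xx (j + r + 1) b - px)
    (hE : RR (j + r + 1) * (xx (j + r + 1) b - px) ≤
      (hh (j + r + 1) b - hh (j + r + 1) i) * (xx (j + r + 1) (b + 1) - px)) (k : ℕ) (hk : b < k) :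
    (hh (j + r + 1) k - hh (j + r + 1) i) * (xx (j + r + 1) b - px) <
      (hh (j + r + 1) b - hh (j + r + 1) i) * (xx (j + r + 1) k - px) := by
  have h1 := hh_le' j r k
  have h2 := hh_pos (j + r + 1) i hi
  have h3 : (hh (j + r + 1) k - hh (j + r + 1) i) * (xx (j + r + 1) b - px) <
      RR (j + r + 1) * (xx (j + r + 1) b - px) := mul_lt_mul_of_pos_right (by linarith) hD
  have h4 : xx (j + r + 1) (b + 1) ≤ xx (j + r + 1) k := (xx_mono _).monotone hk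
  have h5 : (hh (j + r + 1) b - hh (j + r + 1) i) * (xx (j + r + 1) (b + 1) - px) ≤
      (hh (j + r + 1) b - hh (j + r + 1) i) * (xx (j + r + 1) k - px) :=
    mul_le_mul_of_nonneg_left (by linarith) (by linarith)
  linarith

theorem left_cond' {j r i a : ℕ} {px : ℝ} (hi : i < 11 * (j + r + 1) + 5)
    (hlt : hh (j + r + 1) i < hh (j + r + 1) a) (hD : 0 < px - xx (j + r + 1) (a + 1))
    (hE : RR (j + r + 1) * (px - xx (j + r + 1) (a + 1)) ≤
      (hh (j + r + 1) a - hh (j + r + 1) i) * (px - xx (j + r + 1) a)) (k : ℕ) (hk : k < a) :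
    (hh (j + r + 1) k - hh (j + r + 1) i) * (px - xx (j + r + 1) (a + 1)) <
      (hh (j + r + 1) a - hh (j + r + 1) i) * (px - xx (j + r + 1) (k + 1)) := by
  have h1 := hh_le' j r k
  have h2 := hh_pos (j + r + 1) i hi
  have h3 : (hh (j + r + 1) k - hh (j + r + 1) i) * (px - xx (j + r + 1) (a + 1)) <
      RR (j + r + 1) * (px - xx (j + r + 1) (a + 1)) := mul_lt_mul_of_pos_right (by linarith) hD
  have h4 : xx (j + r + 1) (k + 1) ≤ xx (j + r + 1) a := (xx_mono _).monotone hk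
  have h5 : (hh (j + r + 1) a - hh (j + r + 1) i) * (px - xx (j + r + 1) a) ≤
      (hh (j + r + 1) a - hh (j + r + 1) i) * (px - xx (j + r + 1) (k + 1)) :=
    mul_le_mul_of_nonneg_left (by linarith) (by linarith)
  linarith

theorem clause_extL {j r i b : ℕ} {px : ℝ} (hib : i < b) (hbN : b < 11 * (j + r + 1) + 5)
    (h1 : xx (j + r + 1) i < px) (h2 : px < xx (j + r + 1) (i + 1))
    (hd1 : ∀ k, k < i → dep (j + r + 1) i < dep (j + r + 1) k)
    (hd2 : ∀ k, i < k → k < b → dep (j + r + 1) i < dep (j + r + 1) k)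
    (hB : dep (j + r + 1) b < dep (j + r + 1) i)
    (hE : RR (j + r + 1) * (xx (j + r + 1) b - px) ≤
      (hh (j + r + 1) b - hh (j + r + 1) i) * (xx (j + r + 1) (b + 1) - px))
    {S : Finset (ZMod (2 * (fam (j + r + 1)).N + 2))}
    (hS : ∀ p ∈ (fam (j + r + 1)).poly.exterior, ∃ v ∈ S,
      segment ℝ ((fam (j + r + 1)).poly.pt v) p ⊆ (fam (j + r + 1)).poly.exterior) :
    (fam (j + r + 1)).ix (2 * i + 1) ∈ S ∨ (fam (j + r + 1)).ix (2 * i + 2) ∈ S ∨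
      (fam (j + r + 1)).ix (2 * b + 1) ∈ S := by
  have hi : i < 11 * (j + r + 1) + 5 := by omega
  have hx : xx (j + r + 1) (i + 1) ≤ xx (j + r + 1) b := (xx_mono _).monotone hib
  have := Hist.hit_ext (fam (j + r + 1)) (i := i) (px := px) hi h1 h2
    (fun k _ h => hh_inj _ k i h) (a := 0) (b := b) (Nat.zero_le _) hib hbN.le
    (fun k _ h4 => hh_lt (hd1 k h4)) (fun k h3 h4 => hh_lt (hd2 k h3 h4))
    (fun h => absurd h (lt_irrefl _))
    (fun _ => ⟨hh_lt hB, fun k hk _ _ => right_cond hi (hh_lt hB) (by linarith) hE k hk⟩) hS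
  rcases this with h | h | h | h
  · exact Or.inl h
  · exact Or.inr (Or.inl h)
  · exact absurd h.1 (lt_irrefl _)
  · exact Or.inr (Or.inr h.2)

theorem clause_extR {j r a : ℕ} {px : ℝ} (hi : a + 1 < 11 * (j + r + 1) + 5)
    (h1 : xx (j + r + 1) (a + 1) < px) (h2 : px < xx (j + r + 1) (a + 1 + 1))
    (hd2 : ∀ k, a + 1 < k → dep (j + r + 1) (a + 1) < dep (j + r + 1) k)
    (hA : dep (j + r + 1) a < dep (j + r + 1) (a + 1))
    (hE : RR (j + r + 1) * (px - xx (j + r + 1) (a + 1)) ≤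
      (hh (j + r + 1) a - hh (j + r + 1) (a + 1)) * (px - xx (j + r + 1) a))
    {S : Finset (ZMod (2 * (fam (j + r + 1)).N + 2))}
    (hS : ∀ p ∈ (fam (j + r + 1)).poly.exterior, ∃ v ∈ S,
      segment ℝ ((fam (j + r + 1)).poly.pt v) p ⊆ (fam (j + r + 1)).poly.exterior) :
    (fam (j + r + 1)).ix (2 * (a + 1) + 1) ∈ S ∨ (fam (j + r + 1)).ix (2 * (a + 1) + 2) ∈ S ∨
      (fam (j + r + 1)).ix (2 * a + 2) ∈ S := by
  have := Hist.hit_ext (fam (j + r + 1)) (i := a + 1) (px := px) hi h1 h2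
    (fun k _ h => hh_inj _ k _ h) (a := a + 1) (b := (fam (j + r + 1)).N) le_rfl hi le_rfl
    (fun k h3 h4 => absurd h4 (by omega)) (fun k h3 _ => hh_lt (hd2 k h3))
    (fun _ => ⟨hh_lt hA, fun k hk _ => left_cond' hi (hh_lt hA) (by linarith) hE k hk⟩)
    (fun h => absurd h (lt_irrefl _)) hS
  rcases this with h | h | h | h
  · exact Or.inl h
  · exact Or.inr (Or.inl h)
  · rw [show 2 * (a + 1) = 2 * a + 2 by ring] at h
    exact Or.inr (Or.inr h.2)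
  · exact absurd h.1 (lt_irrefl _)

theorem qL_A {P R : ℝ} (hP : 1 ≤ P) (hR : 20 ≤ R) : 0 ≤ 4 * ((-(P * R ^ 5 + R ^ 3 + R + R ^ 2)) - ((-(P * R ^ 7)) - 1)) - R * ((-(P * R ^ 7)) - ((-(P * R ^ 7)) - 1)) := by
  obtain ⟨s, t, hs, ht, rfl, rfl⟩ := subst_PR hP hR
  ring_nf
  positivity

theorem vL_A {P R : ℝ} (hP : 1 ≤ P) (hR : 20 ≤ R) : 0 < ((-(P * R ^ 7)) - 1) - (-(P * R ^ 8)) := by
  obtain ⟨s, t, hs, ht, rfl, rfl⟩ := subst_PR hP hR
  ring_nf
  positivity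

theorem qL_E {P R : ℝ} (hP : 1 ≤ P) (hR : 20 ≤ R) : 0 ≤ 4 * ((-P) - ((-(P * R)) - 1)) - R * ((-(P * R)) - ((-(P * R)) - 1)) := by
  obtain ⟨s, t, hs, ht, rfl, rfl⟩ := subst_PR hP hR
  ring_nf
  positivity

theorem vL_E {P R : ℝ} (hP : 1 ≤ P) (hR : 20 ≤ R) : 0 < ((-(P * R)) - 1) - (-(P * R ^ 5)) := by
  obtain ⟨s, t, hs, ht, rfl, rfl⟩ := subst_PR hP hR
  ring_nf
  positivity

theorem qL_T {P R : ℝ} (hP : 1 ≤ P) (hR : 20 ≤ R) : 0 ≤ 1 * ((-(P * R)) - ((-(P * R ^ 5 + R ^ 3)) - 1)) - R * ((-(P * R ^ 5)) - ((-(P * R ^ 5 + R ^ 3)) - 1)) := by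
  obtain ⟨s, t, hs, ht, rfl, rfl⟩ := subst_PR hP hR
  ring_nf
  positivity

theorem vL_T {P R : ℝ} (hP : 1 ≤ P) (hR : 20 ≤ R) : 0 < ((-(P * R ^ 5 + R ^ 3)) - 1) - (-(P * R ^ 5 + R ^ 3 + R)) := by
  obtain ⟨s, t, hs, ht, rfl, rfl⟩ := subst_PR hP hR
  ring_nf
  positivity

theorem qL_U {P R : ℝ} (hP : 1 ≤ P) (hR : 20 ≤ R) : 0 ≤ 1 * ((-(P * R ^ 5 + R ^ 3)) - ((-(P * R ^ 5 + R ^ 3 + R)) - 1)) - R * ((-(P * R ^ 5 + R ^ 3 + R)) - ((-(P * R ^ 5 + R ^ 3 + R)) - 1)) := by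
  obtain ⟨s, t, hs, ht, rfl, rfl⟩ := subst_PR hP hR
  ring_nf
  positivity

theorem vL_U {P R : ℝ} (hP : 1 ≤ P) (hR : 20 ≤ R) : 0 < ((-(P * R ^ 5 + R ^ 3 + R)) - 1) - (-(P * R ^ 5 + R ^ 3 + R + R ^ 2)) := by
  obtain ⟨s, t, hs, ht, rfl, rfl⟩ := subst_PR hP hR
  ring_nf
  positivity

theorem qL_V {P R : ℝ} (hP : 1 ≤ P) (hR : 20 ≤ R) : 0 ≤ 1 * ((-(P * R ^ 5 + R ^ 3 + R)) - ((-(P * R ^ 5 + R ^ 3 + R + R ^ 2)) - 1)) - R * ((-(P * R ^ 5 + R ^ 3 + R + R ^ 2)) - ((-(P * R ^ 5 + R ^ 3 + R + R ^ 2)) - 1)) := by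
  obtain ⟨s, t, hs, ht, rfl, rfl⟩ := subst_PR hP hR
  ring_nf
  positivity

theorem vL_V {P R : ℝ} (hP : 1 ≤ P) (hR : 20 ≤ R) : 0 < ((-(P * R ^ 5 + R ^ 3 + R + R ^ 2)) - 1) - (-(P * R ^ 7)) := by
  obtain ⟨s, t, hs, ht, rfl, rfl⟩ := subst_PR hP hR
  ring_nf
  positivity

theorem qR_B {P R : ℝ} (hP : 1 ≤ P) (hR : 20 ≤ R) : 0 ≤ 3 * ((P * R ^ 7 + 1) - P * R ^ 6) - R * ((P * R ^ 7 + 1) - P * R ^ 7) := by
  obtain ⟨s, t, hs, ht, rfl, rfl⟩ := subst_PR hP hR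
  ring_nf
  positivity

theorem vR_B {P R : ℝ} (hP : 1 ≤ P) (hR : 20 ≤ R) : 0 < P * R ^ 9 - (P * R ^ 7 + 1) := by
  obtain ⟨s, t, hs, ht, rfl, rfl⟩ := subst_PR hP hR
  ring_nf
  positivity

theorem qR_C {P R : ℝ} (hP : 1 ≤ P) (hR : 20 ≤ R) : 0 ≤ 1 * ((P * R ^ 2 + 1) - P) - R * ((P * R ^ 2 + 1) - P * R ^ 2) := by
  obtain ⟨s, t, hs, ht, rfl, rfl⟩ := subst_PR hP hR
  ring_nf
  positivity

theorem vR_C {P R : ℝ} (hP : 1 ≤ P) (hR : 20 ≤ R) : 0 < P * R ^ 3 - (P * R ^ 2 + 1) := by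
  obtain ⟨s, t, hs, ht, rfl, rfl⟩ := subst_PR hP hR
  ring_nf
  positivity

theorem qR_D {P R : ℝ} (hP : 1 ≤ P) (hR : 20 ≤ R) : 0 ≤ 1 * ((P * R ^ 3 + 1) - P * R ^ 2) - R * ((P * R ^ 3 + 1) - P * R ^ 3) := by
  obtain ⟨s, t, hs, ht, rfl, rfl⟩ := subst_PR hP hR
  ring_nf
  positivity

theorem vR_D {P R : ℝ} (hP : 1 ≤ P) (hR : 20 ≤ R) : 0 < P * R ^ 4 - (P * R ^ 3 + 1) := by
  obtain ⟨s, t, hs, ht, rfl, rfl⟩ := subst_PR hP hR
  ring_nf
  positivity

theorem qR_F {P R : ℝ} (hP : 1 ≤ P) (hR : 20 ≤ R) : 0 ≤ 5 * ((P * R ^ 4 + 1) - P * R ^ 3) - R * ((P * R ^ 4 + 1) - P * R ^ 4) := by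
  obtain ⟨s, t, hs, ht, rfl, rfl⟩ := subst_PR hP hR
  ring_nf
  positivity

theorem vR_F {P R : ℝ} (hP : 1 ≤ P) (hR : 20 ≤ R) : 0 < P * R ^ 6 - (P * R ^ 4 + 1) := by
  obtain ⟨s, t, hs, ht, rfl, rfl⟩ := subst_PR hP hR
  ring_nf
  positivity

theorem qR_G {P R : ℝ} (hP : 1 ≤ P) (hR : 20 ≤ R) : 0 ≤ 1 * ((P * R ^ 6 + 1) - P * R ^ 4) - R * ((P * R ^ 6 + 1) - P * R ^ 6) := by
  obtain ⟨s, t, hs, ht, rfl, rfl⟩ := subst_PR hP hR
  ring_nf
  positivity

theorem vR_G {P R : ℝ} (hP : 1 ≤ P) (hR : 20 ≤ R) : 0 < P * R ^ 7 - (P * R ^ 6 + 1) := by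
  obtain ⟨s, t, hs, ht, rfl, rfl⟩ := subst_PR hP hR
  ring_nf
  positivity

theorem ext_A (j r : ℕ) {S : Finset (ZMod (2 * (fam (j + r + 1)).N + 2))}
    (hS : ∀ p ∈ (fam (j + r + 1)).poly.exterior, ∃ v ∈ S,
      segment ℝ ((fam (j + r + 1)).poly.pt v) p ⊆ (fam (j + r + 1)).poly.exterior) :
    (fam (j + r + 1)).ix (2 * (6 * r + 1) + 1) ∈ S ∨ (fam (j + r + 1)).ix (2 * (6 * r + 1) + 2) ∈ S ∨
      (fam (j + r + 1)).ix (2 * (6 * r + 2) + 1) ∈ S := by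
  have hR := RR_ge (j + r + 1)
  have hP := PP_one (j + r + 1) j
  have e1 := qL_A hP hR
  have e2 := vL_A hP hR
  have d1 := dl1 j r
  have db := dl2 j r
  refine clause_extL (i := 6 * r + 1) (b := 6 * r + 2) (px := xx (j + r + 1) (6 * r + 2) - 1)
    (by omega) (by omega) ?_ ?_ ?_ ?_ (by rw [d1, db]; omega) ?_ hS
  · rw [xl2 j r, xl1 j r]
    linarith
  · show xx (j + r + 1) (6 * r + 2) - 1 < xx (j + r + 1) (6 * r + 2)
    linarith
  · intro k h3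
    rw [d1]
    unfold dep offL offR
    split_ifs <;> omega
  · intro k h3 h4
    rw [d1]
    unfold dep offL offR
    split_ifs <;> omega
  · rw [show 6 * r + 2 + 1 = 6 * r + 3 from rfl, hl2 j r, hl1 j r, xl2 j r, xl3 j r]
    linarith

theorem ext_E (j r : ℕ) {S : Finset (ZMod (2 * (fam (j + r + 1)).N + 2))}
    (hS : ∀ p ∈ (fam (j + r + 1)).poly.exterior, ∃ v ∈ S,
      segment ℝ ((fam (j + r + 1)).poly.pt v) p ⊆ (fam (j + r + 1)).poly.exterior) :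
    (fam (j + r + 1)).ix (2 * (6 * r + 6) + 1) ∈ S ∨ (fam (j + r + 1)).ix (2 * (6 * r + 6) + 2) ∈ S ∨
      (fam (j + r + 1)).ix (2 * (6 * r + 7) + 1) ∈ S := by
  have hR := RR_ge (j + r + 1)
  have hP := PP_one (j + r + 1) j
  have e1 := qL_E hP hR
  have e2 := vL_E hP hR
  have d1 := dl6 j r
  have db := dl7 j r
  refine clause_extL (i := 6 * r + 6) (b := 6 * r + 7) (px := xx (j + r + 1) (6 * r + 7) - 1)
    (by omega) (by omega) ?_ ?_ ?_ ?_ (by rw [d1, db]; omega) ?_ hS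
  · rw [xl7 j r, xl6 j r]
    linarith
  · show xx (j + r + 1) (6 * r + 7) - 1 < xx (j + r + 1) (6 * r + 7)
    linarith
  · intro k h3
    rw [d1]
    unfold dep offL offR
    split_ifs <;> omega
  · intro k h3 h4
    rw [d1]
    unfold dep offL offR
    split_ifs <;> omega
  · rw [show 6 * r + 7 + 1 = 6 * r + 8 from rfl, hl7 j r, hl6 j r, xl7 j r, xl8 j r]
    linarith

theorem ext_T (j r : ℕ) {S : Finset (ZMod (2 * (fam (j + r + 1)).N + 2))}
    (hS : ∀ p ∈ (fam (j + r + 1)).poly.exterior, ∃ v ∈ S,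
      segment ℝ ((fam (j + r + 1)).poly.pt v) p ⊆ (fam (j + r + 1)).poly.exterior) :
    (fam (j + r + 1)).ix (2 * (6 * r + 4) + 1) ∈ S ∨ (fam (j + r + 1)).ix (2 * (6 * r + 4) + 2) ∈ S ∨
      (fam (j + r + 1)).ix (2 * (6 * r + 6) + 1) ∈ S := by
  have hR := RR_ge (j + r + 1)
  have hP := PP_one (j + r + 1) j
  have e1 := qL_T hP hR
  have e2 := vL_T hP hR
  have d1 := dl4 j r
  have db := dl6 j r
  refine clause_extL (i := 6 * r + 4) (b := 6 * r + 6) (px := xx (j + r + 1) (6 * r + 5) - 1)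
    (by omega) (by omega) ?_ ?_ ?_ ?_ (by rw [d1, db]; omega) ?_ hS
  · rw [xl5 j r, xl4 j r]
    linarith
  · show xx (j + r + 1) (6 * r + 5) - 1 < xx (j + r + 1) (6 * r + 5)
    linarith
  · intro k h3
    rw [d1]
    unfold dep offL offR
    split_ifs <;> omega
  · intro k h3 h4
    rw [d1]
    unfold dep offL offR
    split_ifs <;> omega
  · rw [show 6 * r + 6 + 1 = 6 * r + 7 from rfl, hl6 j r, hl4 j r, xl5 j r, xl6 j r, xl7 j r]
    linarith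

theorem ext_U (j r : ℕ) {S : Finset (ZMod (2 * (fam (j + r + 1)).N + 2))}
    (hS : ∀ p ∈ (fam (j + r + 1)).poly.exterior, ∃ v ∈ S,
      segment ℝ ((fam (j + r + 1)).poly.pt v) p ⊆ (fam (j + r + 1)).poly.exterior) :
    (fam (j + r + 1)).ix (2 * (6 * r + 3) + 1) ∈ S ∨ (fam (j + r + 1)).ix (2 * (6 * r + 3) + 2) ∈ S ∨
      (fam (j + r + 1)).ix (2 * (6 * r + 4) + 1) ∈ S := by
  have hR := RR_ge (j + r + 1)
  have hP := PP_one (j + r + 1) j
  have e1 := qL_U hP hR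
  have e2 := vL_U hP hR
  have d1 := dl3 j r
  have db := dl4 j r
  refine clause_extL (i := 6 * r + 3) (b := 6 * r + 4) (px := xx (j + r + 1) (6 * r + 4) - 1)
    (by omega) (by omega) ?_ ?_ ?_ ?_ (by rw [d1, db]; omega) ?_ hS
  · rw [xl4 j r, xl3 j r]
    linarith
  · show xx (j + r + 1) (6 * r + 4) - 1 < xx (j + r + 1) (6 * r + 4)
    linarith
  · intro k h3
    rw [d1]
    unfold dep offL offR
    split_ifs <;> omega
  · intro k h3 h4
    rw [d1]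
    unfold dep offL offR
    split_ifs <;> omega
  · rw [show 6 * r + 4 + 1 = 6 * r + 5 from rfl, hl4 j r, hl3 j r, xl4 j r, xl5 j r]
    linarith

theorem ext_V (j r : ℕ) {S : Finset (ZMod (2 * (fam (j + r + 1)).N + 2))}
    (hS : ∀ p ∈ (fam (j + r + 1)).poly.exterior, ∃ v ∈ S,
      segment ℝ ((fam (j + r + 1)).poly.pt v) p ⊆ (fam (j + r + 1)).poly.exterior) :
    (fam (j + r + 1)).ix (2 * (6 * r + 2) + 1) ∈ S ∨ (fam (j + r + 1)).ix (2 * (6 * r + 2) + 2) ∈ S ∨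
      (fam (j + r + 1)).ix (2 * (6 * r + 3) + 1) ∈ S := by
  have hR := RR_ge (j + r + 1)
  have hP := PP_one (j + r + 1) j
  have e1 := qL_V hP hR
  have e2 := vL_V hP hR
  have d1 := dl2 j r
  have db := dl3 j r
  refine clause_extL (i := 6 * r + 2) (b := 6 * r + 3) (px := xx (j + r + 1) (6 * r + 3) - 1)
    (by omega) (by omega) ?_ ?_ ?_ ?_ (by rw [d1, db]; omega) ?_ hS
  · rw [xl3 j r, xl2 j r]
    linarith
  · show xx (j + r + 1) (6 * r + 3) - 1 < xx (j + r + 1) (6 * r + 3)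
    linarith
  · intro k h3
    rw [d1]
    unfold dep offL offR
    split_ifs <;> omega
  · intro k h3 h4
    rw [d1]
    unfold dep offL offR
    split_ifs <;> omega
  · rw [show 6 * r + 3 + 1 = 6 * r + 4 from rfl, hl3 j r, hl2 j r, xl3 j r, xl4 j r]
    linarith

theorem ext_B (j r : ℕ) {S : Finset (ZMod (2 * (fam (j + r + 1)).N + 2))}
    (hS : ∀ p ∈ (fam (j + r + 1)).poly.exterior, ∃ v ∈ S,
      segment ℝ ((fam (j + r + 1)).poly.pt v) p ⊆ (fam (j + r + 1)).poly.exterior) :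
    (fam (j + r + 1)).ix (2 * (11 * j + 6 * r + 14) + 1) ∈ S ∨ (fam (j + r + 1)).ix (2 * (11 * j + 6 * r + 14) + 2) ∈ S ∨
      (fam (j + r + 1)).ix (2 * (11 * j + 6 * r + 13) + 2) ∈ S := by
  have hR := RR_ge (j + r + 1)
  have hP := PP_one (j + r + 1) j
  have e1 := qR_B hP hR
  have e2 := vR_B hP hR
  have d1 := dr5 j r
  have da := dr4 j r
  refine clause_extR (a := 11 * j + 6 * r + 13) (px := xx (j + r + 1) (11 * j + 6 * r + 14) + 1)
    (by omega) ?_ ?_ ?_ ?_ ?_ hS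
  · show xx (j + r + 1) (11 * j + 6 * r + 14) < xx (j + r + 1) (11 * j + 6 * r + 14) + 1
    linarith
  · show xx (j + r + 1) (11 * j + 6 * r + 14) + 1 < xx (j + r + 1) (11 * j + 6 * r + 15)
    rw [xr5 j r, xr6 j r]
    linarith
  · intro k h3
    show dep (j + r + 1) (11 * j + 6 * r + 14) < dep (j + r + 1) k
    rw [d1]
    unfold dep offL offR
    split_ifs <;> omega
  · show dep (j + r + 1) (11 * j + 6 * r + 13) < dep (j + r + 1) (11 * j + 6 * r + 14)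
    rw [d1, da]
    omega
  · rw [show 11 * j + 6 * r + 13 + 1 = 11 * j + 6 * r + 14 from rfl, hr4 j r, hr5 j r, xr5 j r, xr4 j r]
    linarith

theorem ext_C (j r : ℕ) {S : Finset (ZMod (2 * (fam (j + r + 1)).N + 2))}
    (hS : ∀ p ∈ (fam (j + r + 1)).poly.exterior, ∃ v ∈ S,
      segment ℝ ((fam (j + r + 1)).poly.pt v) p ⊆ (fam (j + r + 1)).poly.exterior) :
    (fam (j + r + 1)).ix (2 * (11 * j + 6 * r + 10) + 1) ∈ S ∨ (fam (j + r + 1)).ix (2 * (11 * j + 6 * r + 10) + 2) ∈ S ∨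
      (fam (j + r + 1)).ix (2 * (11 * j + 6 * r + 9) + 2) ∈ S := by
  have hR := RR_ge (j + r + 1)
  have hP := PP_one (j + r + 1) j
  have e1 := qR_C hP hR
  have e2 := vR_C hP hR
  have d1 := dr1 j r
  have da := dr0 j r
  refine clause_extR (a := 11 * j + 6 * r + 9) (px := xx (j + r + 1) (11 * j + 6 * r + 10) + 1)
    (by omega) ?_ ?_ ?_ ?_ ?_ hS
  · show xx (j + r + 1) (11 * j + 6 * r + 10) < xx (j + r + 1) (11 * j + 6 * r + 10) + 1
    linarith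
  · show xx (j + r + 1) (11 * j + 6 * r + 10) + 1 < xx (j + r + 1) (11 * j + 6 * r + 11)
    rw [xr1 j r, xr2 j r]
    linarith
  · intro k h3
    show dep (j + r + 1) (11 * j + 6 * r + 10) < dep (j + r + 1) k
    rw [d1]
    unfold dep offL offR
    split_ifs <;> omega
  · show dep (j + r + 1) (11 * j + 6 * r + 9) < dep (j + r + 1) (11 * j + 6 * r + 10)
    rw [d1, da]
    omega
  · rw [show 11 * j + 6 * r + 9 + 1 = 11 * j + 6 * r + 10 from rfl, hr0 j r, hr1 j r, xr1 j r, xr0 j r]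
    linarith

theorem ext_D (j r : ℕ) {S : Finset (ZMod (2 * (fam (j + r + 1)).N + 2))}
    (hS : ∀ p ∈ (fam (j + r + 1)).poly.exterior, ∃ v ∈ S,
      segment ℝ ((fam (j + r + 1)).poly.pt v) p ⊆ (fam (j + r + 1)).poly.exterior) :
    (fam (j + r + 1)).ix (2 * (11 * j + 6 * r + 11) + 1) ∈ S ∨ (fam (j + r + 1)).ix (2 * (11 * j + 6 * r + 11) + 2) ∈ S ∨
      (fam (j + r + 1)).ix (2 * (11 * j + 6 * r + 10) + 2) ∈ S := by
  have hR := RR_ge (j + r + 1)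
  have hP := PP_one (j + r + 1) j
  have e1 := qR_D hP hR
  have e2 := vR_D hP hR
  have d1 := dr2 j r
  have da := dr1 j r
  refine clause_extR (a := 11 * j + 6 * r + 10) (px := xx (j + r + 1) (11 * j + 6 * r + 11) + 1)
    (by omega) ?_ ?_ ?_ ?_ ?_ hS
  · show xx (j + r + 1) (11 * j + 6 * r + 11) < xx (j + r + 1) (11 * j + 6 * r + 11) + 1
    linarith
  · show xx (j + r + 1) (11 * j + 6 * r + 11) + 1 < xx (j + r + 1) (11 * j + 6 * r + 12)
    rw [xr2 j r, xr3 j r]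
    linarith
  · intro k h3
    show dep (j + r + 1) (11 * j + 6 * r + 11) < dep (j + r + 1) k
    rw [d1]
    unfold dep offL offR
    split_ifs <;> omega
  · show dep (j + r + 1) (11 * j + 6 * r + 10) < dep (j + r + 1) (11 * j + 6 * r + 11)
    rw [d1, da]
    omega
  · rw [show 11 * j + 6 * r + 10 + 1 = 11 * j + 6 * r + 11 from rfl, hr1 j r, hr2 j r, xr2 j r, xr1 j r]
    linarith

theorem ext_F (j r : ℕ) {S : Finset (ZMod (2 * (fam (j + r + 1)).N + 2))}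
    (hS : ∀ p ∈ (fam (j + r + 1)).poly.exterior, ∃ v ∈ S,
      segment ℝ ((fam (j + r + 1)).poly.pt v) p ⊆ (fam (j + r + 1)).poly.exterior) :
    (fam (j + r + 1)).ix (2 * (11 * j + 6 * r + 12) + 1) ∈ S ∨ (fam (j + r + 1)).ix (2 * (11 * j + 6 * r + 12) + 2) ∈ S ∨
      (fam (j + r + 1)).ix (2 * (11 * j + 6 * r + 11) + 2) ∈ S := by
  have hR := RR_ge (j + r + 1)
  have hP := PP_one (j + r + 1) j
  have e1 := qR_F hP hR
  have e2 := vR_F hP hR
  have d1 := dr3 j r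
  have da := dr2 j r
  refine clause_extR (a := 11 * j + 6 * r + 11) (px := xx (j + r + 1) (11 * j + 6 * r + 12) + 1)
    (by omega) ?_ ?_ ?_ ?_ ?_ hS
  · show xx (j + r + 1) (11 * j + 6 * r + 12) < xx (j + r + 1) (11 * j + 6 * r + 12) + 1
    linarith
  · show xx (j + r + 1) (11 * j + 6 * r + 12) + 1 < xx (j + r + 1) (11 * j + 6 * r + 13)
    rw [xr3 j r, xr4 j r]
    linarith
  · intro k h3
    show dep (j + r + 1) (11 * j + 6 * r + 12) < dep (j + r + 1) k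
    rw [d1]
    unfold dep offL offR
    split_ifs <;> omega
  · show dep (j + r + 1) (11 * j + 6 * r + 11) < dep (j + r + 1) (11 * j + 6 * r + 12)
    rw [d1, da]
    omega
  · rw [show 11 * j + 6 * r + 11 + 1 = 11 * j + 6 * r + 12 from rfl, hr2 j r, hr3 j r, xr3 j r, xr2 j r]
    linarith

theorem ext_G (j r : ℕ) {S : Finset (ZMod (2 * (fam (j + r + 1)).N + 2))}
    (hS : ∀ p ∈ (fam (j + r + 1)).poly.exterior, ∃ v ∈ S,
      segment ℝ ((fam (j + r + 1)).poly.pt v) p ⊆ (fam (j + r + 1)).poly.exterior) :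
    (fam (j + r + 1)).ix (2 * (11 * j + 6 * r + 13) + 1) ∈ S ∨ (fam (j + r + 1)).ix (2 * (11 * j + 6 * r + 13) + 2) ∈ S ∨
      (fam (j + r + 1)).ix (2 * (11 * j + 6 * r + 12) + 2) ∈ S := by
  have hR := RR_ge (j + r + 1)
  have hP := PP_one (j + r + 1) j
  have e1 := qR_G hP hR
  have e2 := vR_G hP hR
  have d1 := dr4 j r
  have da := dr3 j r
  refine clause_extR (a := 11 * j + 6 * r + 12) (px := xx (j + r + 1) (11 * j + 6 * r + 13) + 1)
    (by omega) ?_ ?_ ?_ ?_ ?_ hS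
  · show xx (j + r + 1) (11 * j + 6 * r + 13) < xx (j + r + 1) (11 * j + 6 * r + 13) + 1
    linarith
  · show xx (j + r + 1) (11 * j + 6 * r + 13) + 1 < xx (j + r + 1) (11 * j + 6 * r + 14)
    rw [xr4 j r, xr5 j r]
    linarith
  · intro k h3
    show dep (j + r + 1) (11 * j + 6 * r + 13) < dep (j + r + 1) k
    rw [d1]
    unfold dep offL offR
    split_ifs <;> omega
  · show dep (j + r + 1) (11 * j + 6 * r + 12) < dep (j + r + 1) (11 * j + 6 * r + 13)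
    rw [d1, da]
    omega
  · rw [show 11 * j + 6 * r + 12 + 1 = 11 * j + 6 * r + 13 from rfl, hr3 j r, hr4 j r, xr4 j r, xr3 j r]
    linarith

theorem qW {P R : ℝ} (hP : 1 ≤ P) (hR : 20 ≤ R) :
    0 < -(P * R ^ 5) - 1 - -(P * R ^ 5 + R ^ 3) ∧
    0 ≤ 6 * (-(P * R) - (-(P * R ^ 5) - 1)) - R * (-(P * R ^ 5) - (-(P * R ^ 5) - 1)) := by
  obtain ⟨s, t, hs, ht, rfl, rfl⟩ := subst_PR hP hR
  refine ⟨?_, ?_⟩ <;> · ring_nf; positivity

theorem ext_W (j r : ℕ) {S : Finset (ZMod (2 * (fam (j + r + 1)).N + 2))}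
    (hS : ∀ p ∈ (fam (j + r + 1)).poly.exterior, ∃ v ∈ S,
      segment ℝ ((fam (j + r + 1)).poly.pt v) p ⊆ (fam (j + r + 1)).poly.exterior) :
    (fam (j + r + 1)).ix (2 * (6 * r + 5) + 1) ∈ S ∨
      (fam (j + r + 1)).ix (2 * (6 * r + 5) + 2) ∈ S ∨
      (fam (j + r + 1)).ix (2 * (6 * r + 4) + 2) ∈ S ∨
      (fam (j + r + 1)).ix (2 * (6 * r + 6) + 1) ∈ S := by
  have hR := RR_ge (j + r + 1)
  have hP := PP_one (j + r + 1) j
  obtain ⟨e1, e2⟩ := qW hP hR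
  have x5 := xl5 j r
  have x6 := xl6 j r
  have x7 := xl7 j r
  have d4 := dl4 j r
  have d5 := dl5 j r
  have d6 := dl6 j r
  have h4 := hl4 j r
  have h5 := hl5 j r
  have h6 := hl6 j r
  have hi : 6 * r + 5 < 11 * (j + r + 1) + 5 := by omega
  have l1 : xx (j + r + 1) (6 * r + 5) < xx (j + r + 1) (6 * r + 6) - 1 := by
    rw [x5, x6]
    linarith
  have := Hist.hit_ext (fam (j + r + 1)) (i := 6 * r + 5) (px := xx (j + r + 1) (6 * r + 6) - 1) hi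
    l1 (by show xx (j + r + 1) (6 * r + 6) - 1 < xx (j + r + 1) (6 * r + 6); linarith)
    (fun k _ h => hh_inj _ k _ h) (a := 6 * r + 5) (b := 6 * r + 6) le_rfl (by omega)
    (by rw [fam_N]; omega)
    (fun k h3 h4 => absurd h4 (by omega)) (fun k h3 h4 => absurd h4 (by omega))
    (fun _ => ⟨by
      show hh (j + r + 1) (6 * r + 5) < hh (j + r + 1) (6 * r + 4)
      rw [h5, h4]
      linarith, fun k hk hki => ?_⟩)
    (fun _ => ⟨by
      show hh (j + r + 1) (6 * r + 5) < hh (j + r + 1) (6 * r + 6)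
      rw [h5, h6]
      linarith, fun k hk _ _ => right_cond hi (by rw [h5, h6]; linarith) (by linarith)
        (by
          rw [show 6 * r + 6 + 1 = 6 * r + 7 from rfl, h5, h6, x6, x7]
          linarith) k hk⟩) hS
  · rw [show 2 * (6 * r + 5) = 2 * (6 * r + 4) + 2 by ring] at this
    rw [show 2 * (6 * r + 5) + 1 = 2 * (6 * r + 4) + 2 + 1 by ring,
      show 2 * (6 * r + 5) + 2 = 2 * (6 * r + 4) + 2 + 2 by ring]
    rcases this with h | h | h | h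
    · exact Or.inl h
    · exact Or.inr (Or.inl h)
    · exact Or.inr (Or.inr (Or.inl h.2))
    · exact Or.inr (Or.inr (Or.inr h.2))
  · have hki' : hh (j + r + 1) (6 * r + 5) < hh (j + r + 1) k := hki
    have hk' : k < 6 * r + 4 := hk
    have hd := dep_lt hki'
    rw [d5] at hd
    have hk2 : 6 * r + 2 ≤ k := by
      by_contra hcon
      have : k < 6 * r + 2 := by omega
      have : 11 * j + 11 < dep (j + r + 1) k := by
        unfold dep offL offR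
        split_ifs <;> omega
      omega
    have hk4 : hh (j + r + 1) k < hh (j + r + 1) (6 * r + 4) := by
      have : k = 6 * r + 2 ∨ k = 6 * r + 3 := by omega
      rcases this with rfl | rfl
      · rw [hl2 j r, h4]
        linarith
      · rw [hl3 j r, h4]
        linarith
    show (hh (j + r + 1) k - hh (j + r + 1) (6 * r + 5)) *
      (xx (j + r + 1) (6 * r + 6) - 1 - xx (j + r + 1) (6 * r + 5)) <
      (hh (j + r + 1) (6 * r + 4) - hh (j + r + 1) (6 * r + 5)) *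
      (xx (j + r + 1) (6 * r + 6) - 1 - xx (j + r + 1) (k + 1))
    have h7 : xx (j + r + 1) (k + 1) ≤ xx (j + r + 1) (6 * r + 5) :=
      (xx_mono _).monotone (by omega)
    have h8 : (hh (j + r + 1) k - hh (j + r + 1) (6 * r + 5)) *
        (xx (j + r + 1) (6 * r + 6) - 1 - xx (j + r + 1) (6 * r + 5)) <
        (hh (j + r + 1) (6 * r + 4) - hh (j + r + 1) (6 * r + 5)) *
        (xx (j + r + 1) (6 * r + 6) - 1 - xx (j + r + 1) (6 * r + 5)) :=
      mul_lt_mul_of_pos_right (by linarith) (by linarith)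
    have h9 : (hh (j + r + 1) (6 * r + 4) - hh (j + r + 1) (6 * r + 5)) *
        (xx (j + r + 1) (6 * r + 6) - 1 - xx (j + r + 1) (6 * r + 5)) ≤
        (hh (j + r + 1) (6 * r + 4) - hh (j + r + 1) (6 * r + 5)) *
        (xx (j + r + 1) (6 * r + 6) - 1 - xx (j + r + 1) (k + 1)) :=
      mul_le_mul_of_nonneg_left (by linarith) (by linarith)
    linarith

end Pool.Agent.Helper25.DY
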