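import Pool.Agent.Helper67.DY.Hist

/-!
# The mountain family

`fam m` is a histogram with `11 m + 5` columns.  Period `j` has the columns `A E W T U V` on the left
side (going outwards) and `B C D F G` on the right side (going outwards).
-/

namespace Pool.Agent.Helper25.DY

open Pool.Agent.Helper67.DY

/-- The scale. -/
noncomputable def RR (m : ℕ) : ℝ := 11 * m + 20

/-- Distance of the `i`-th breakpoint on the left side from the axis. -/
noncomputable def lam (m i : ℕ) : ℝ :=
  if i % 6 = 0 then RR m ^ (7 * (i / 6))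
  else if i % 6 = 1 then RR m ^ (7 * (i / 6)) * RR m
  else if i % 6 = 2 then RR m ^ (7 * (i / 6)) * RR m ^ 5
  else if i % 6 = 3 then RR m ^ (7 * (i / 6)) * RR m ^ 5 + RR m ^ 3
  else if i % 6 = 4 then RR m ^ (7 * (i / 6)) * RR m ^ 5 + RR m ^ 3 + RR m
  else RR m ^ (7 * (i / 6)) * RR m ^ 5 + RR m ^ 3 + RR m + RR m ^ 2

/-- Distance of the `i`-th breakpoint on the right side from the axis. -/
noncomputable def rho (m i : ℕ) : ℝ :=
  if i % 5 = 0 then RR m ^ (7 * (i / 5))
  else if i % 5 = 1 then RR m ^ (7 * (i / 5)) * RR m ^ 2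
  else if i % 5 = 2 then RR m ^ (7 * (i / 5)) * RR m ^ 3
  else if i % 5 = 3 then RR m ^ (7 * (i / 5)) * RR m ^ 4
  else RR m ^ (7 * (i / 5)) * RR m ^ 6

/-- Depth of the `i`-th column on the left side below the height of the peak. -/
def offL (i : ℕ) : ℕ :=
  11 * (i / 6) + (if i % 6 = 0 then 1 else if i % 6 = 1 then 5 else if i % 6 = 2 then 11
    else if i % 6 = 3 then 6 else if i % 6 = 4 then 7 else 8)

/-- Depth of the `i`-th column on the right side below the height of the peak. -/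
def offR (i : ℕ) : ℕ :=
  11 * (i / 5) + (if i % 5 = 0 then 2 else if i % 5 = 1 then 3 else if i % 5 = 2 then 4
    else if i % 5 = 3 then 9 else 10)

/-- Breakpoints. -/
noncomputable def xx (m k : ℕ) : ℝ :=
  if k ≤ 6 * m + 2 then - lam m (6 * m + 2 - k) else rho m (k - (6 * m + 3))

/-- Depths of the columns. -/
def dep (m k : ℕ) : ℕ :=
  if k < 6 * m + 2 then offL (6 * m + 1 - k) else if k = 6 * m + 2 then 0
  else offR (k - (6 * m + 3))

/-- Heights. -/
noncomputable def hh (m k : ℕ) : ℝ := 11 * m + 7 - dep m k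

theorem RR_ge (m : ℕ) : (20 : ℝ) ≤ RR m := by
  unfold RR
  have : (0 : ℝ) ≤ m := Nat.cast_nonneg m
  linarith

theorem RR_pos (m : ℕ) : (0 : ℝ) < RR m := by
  have := RR_ge m
  linarith

/-- The scale of period `j`. -/
noncomputable def PP (m j : ℕ) : ℝ := RR m ^ (7 * j)

theorem PP_one (m j : ℕ) : (1 : ℝ) ≤ PP m j := one_le_pow₀ (by have := RR_ge m; linarith)

theorem PP_succ (m j : ℕ) : PP m (j + 1) = PP m j * RR m ^ 7 := by
  unfold PP
  ring

theorem lam_0 (m j : ℕ) : lam m (6 * j) = PP m j := by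
  have h1 : (6 * j) % 6 = 0 := by omega
  have h2 : (6 * j) / 6 = j := by omega
  simp [lam, h1, h2, PP]

theorem lam_1 (m j : ℕ) : lam m (6 * j + 1) = PP m j * RR m := by
  have h1 : (6 * j + 1) % 6 = 1 := by omega
  have h2 : (6 * j + 1) / 6 = j := by omega
  simp [lam, h1, h2, PP]

theorem lam_2 (m j : ℕ) : lam m (6 * j + 2) = PP m j * RR m ^ 5 := by
  have h1 : (6 * j + 2) % 6 = 2 := by omega
  have h2 : (6 * j + 2) / 6 = j := by omega
  simp [lam, h1, h2, PP]

theorem lam_3 (m j : ℕ) : lam m (6 * j + 3) = PP m j * RR m ^ 5 + RR m ^ 3 := by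
  have h1 : (6 * j + 3) % 6 = 3 := by omega
  have h2 : (6 * j + 3) / 6 = j := by omega
  simp [lam, h1, h2, PP]

theorem lam_4 (m j : ℕ) : lam m (6 * j + 4) = PP m j * RR m ^ 5 + RR m ^ 3 + RR m := by
  have h1 : (6 * j + 4) % 6 = 4 := by omega
  have h2 : (6 * j + 4) / 6 = j := by omega
  simp [lam, h1, h2, PP]

theorem lam_5 (m j : ℕ) : lam m (6 * j + 5) = PP m j * RR m ^ 5 + RR m ^ 3 + RR m + RR m ^ 2 := by
  have h1 : (6 * j + 5) % 6 = 5 := by omega
  have h2 : (6 * j + 5) / 6 = j := by omega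
  simp [lam, h1, h2, PP]

theorem rho_0 (m j : ℕ) : rho m (5 * j) = PP m j := by
  have h1 : (5 * j) % 5 = 0 := by omega
  have h2 : (5 * j) / 5 = j := by omega
  simp [rho, h1, h2, PP]

theorem rho_1 (m j : ℕ) : rho m (5 * j + 1) = PP m j * RR m ^ 2 := by
  have h1 : (5 * j + 1) % 5 = 1 := by omega
  have h2 : (5 * j + 1) / 5 = j := by omega
  simp [rho, h1, h2, PP]

theorem rho_2 (m j : ℕ) : rho m (5 * j + 2) = PP m j * RR m ^ 3 := by
  have h1 : (5 * j + 2) % 5 = 2 := by omega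
  have h2 : (5 * j + 2) / 5 = j := by omega
  simp [rho, h1, h2, PP]

theorem rho_3 (m j : ℕ) : rho m (5 * j + 3) = PP m j * RR m ^ 4 := by
  have h1 : (5 * j + 3) % 5 = 3 := by omega
  have h2 : (5 * j + 3) / 5 = j := by omega
  simp [rho, h1, h2, PP]

theorem rho_4 (m j : ℕ) : rho m (5 * j + 4) = PP m j * RR m ^ 6 := by
  have h1 : (5 * j + 4) % 5 = 4 := by omega
  have h2 : (5 * j + 4) / 5 = j := by omega
  simp [rho, h1, h2, PP]

theorem lam_lt (m i : ℕ) : lam m i < lam m (i + 1) := by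
  have hR := RR_ge m
  obtain ⟨j, s, hs, rfl⟩ : ∃ j s, s < 6 ∧ i = 6 * j + s :=
    ⟨i / 6, i % 6, Nat.mod_lt _ (by norm_num), by omega⟩
  have hP := PP_one m j
  have h6 : lam m (6 * j + 5 + 1) = PP m j * RR m ^ 7 := by
    rw [show 6 * j + 5 + 1 = 6 * (j + 1) by ring, lam_0, PP_succ]
  interval_cases s
  · rw [Nat.add_zero, lam_0, lam_1]
    nlinarith
  · rw [show 6 * j + 1 + 1 = 6 * j + 2 by ring, lam_1, lam_2]
    have : RR m < RR m ^ 5 := by
      calc RR m = RR m ^ 1 := (pow_one _).symm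
        _ < RR m ^ 5 := pow_lt_pow_right₀ (by linarith) (by norm_num)
    nlinarith
  · rw [show 6 * j + 2 + 1 = 6 * j + 3 by ring, lam_2, lam_3]
    have := pow_pos (RR_pos m) 3
    linarith
  · rw [show 6 * j + 3 + 1 = 6 * j + 4 by ring, lam_3, lam_4]
    have := RR_pos m
    linarith
  · rw [show 6 * j + 4 + 1 = 6 * j + 5 by ring, lam_4, lam_5]
    have := pow_pos (RR_pos m) 2
    linarith
  · rw [h6, lam_5]
    generalize PP m j = P at *
    generalize RR m = R at *
    have e : P * R ^ 7 = P * (R ^ 5 * (R * R)) := by ring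
    have h5 : 0 < R ^ 5 := pow_pos (by linarith) 5
    have h400 : (400 : ℝ) ≤ R * R := by nlinarith
    have h1 : R ^ 3 ≤ R ^ 5 := pow_le_pow_right₀ (by linarith) (by norm_num)
    have h2 : R ^ 2 ≤ R ^ 5 := pow_le_pow_right₀ (by linarith) (by norm_num)
    have h3 : R ≤ R ^ 5 := by
      calc R = R ^ 1 := (pow_one _).symm
        _ ≤ R ^ 5 := pow_le_pow_right₀ (by linarith) (by norm_num)
    have h4 : P * R ^ 5 * 400 ≤ P * (R ^ 5 * (R * R)) := by
      have : 0 ≤ P * R ^ 5 := by positivity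
      nlinarith
    have h6 : R ^ 5 ≤ P * R ^ 5 := by nlinarith
    rw [e]
    linarith

theorem rho_lt (m i : ℕ) : rho m i < rho m (i + 1) := by
  have hR := RR_ge m
  obtain ⟨j, s, hs, rfl⟩ : ∃ j s, s < 5 ∧ i = 5 * j + s :=
    ⟨i / 5, i % 5, Nat.mod_lt _ (by norm_num), by omega⟩
  have hP := PP_one m j
  have hP0 : 0 < PP m j := by linarith
  have h5 : rho m (5 * j + 4 + 1) = PP m j * RR m ^ 7 := by
    rw [show 5 * j + 4 + 1 = 5 * (j + 1) by ring, rho_0, PP_succ]
  have key : ∀ a b : ℕ, a < b → PP m j * RR m ^ a < PP m j * RR m ^ b := fun a b hab =>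
    mul_lt_mul_of_pos_left (pow_lt_pow_right₀ (by linarith) hab) hP0
  interval_cases s
  · rw [Nat.add_zero, rho_0, rho_1]
    have := key 0 2 (by norm_num)
    simpa using this
  · rw [show 5 * j + 1 + 1 = 5 * j + 2 by ring, rho_1, rho_2]
    exact key 2 3 (by norm_num)
  · rw [show 5 * j + 2 + 1 = 5 * j + 3 by ring, rho_2, rho_3]
    exact key 3 4 (by norm_num)
  · rw [show 5 * j + 3 + 1 = 5 * j + 4 by ring, rho_3, rho_4]
    exact key 4 6 (by norm_num)
  · rw [h5, rho_4]
    exact key 6 7 (by norm_num)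

theorem lam_pos (m i : ℕ) : 0 < lam m i := by
  have h0 : lam m 0 = PP m 0 := lam_0 m 0
  have := PP_one m 0
  induction i with
  | zero => linarith
  | succ i ih => exact ih.trans (lam_lt m i)

theorem rho_pos (m i : ℕ) : 0 < rho m i := by
  have h0 : rho m 0 = PP m 0 := rho_0 m 0
  have := PP_one m 0
  induction i with
  | zero => linarith
  | succ i ih => exact ih.trans (rho_lt m i)

theorem xx_succ (m k : ℕ) : xx m k < xx m (k + 1) := by
  unfold xx
  rcases lt_trichotomy k (6 * m + 2) with h | h | h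
  · rw [if_pos h.le, if_pos (by omega : k + 1 ≤ 6 * m + 2)]
    have := lam_lt m (6 * m + 2 - (k + 1))
    rw [show 6 * m + 2 - (k + 1) + 1 = 6 * m + 2 - k by omega] at this
    linarith
  · rw [if_pos h.le, if_neg (by omega : ¬ k + 1 ≤ 6 * m + 2)]
    have := lam_pos m (6 * m + 2 - k)
    have := rho_pos m (k + 1 - (6 * m + 3))
    linarith
  · rw [if_neg (by omega : ¬ k ≤ 6 * m + 2), if_neg (by omega : ¬ k + 1 ≤ 6 * m + 2)]
    have := rho_lt m (k - (6 * m + 3))
    rw [show k - (6 * m + 3) + 1 = k + 1 - (6 * m + 3) by omega] at this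
    exact this

theorem xx_mono (m : ℕ) : StrictMono (xx m) := strictMono_nat_of_lt_succ (xx_succ m)

theorem dep_le (m k : ℕ) (hk : k < 11 * m + 5) : dep m k ≤ 11 * m + 5 := by
  unfold dep offL offR
  split_ifs <;> omega

theorem dep_ne (m k : ℕ) : dep m k ≠ dep m (k + 1) := by
  unfold dep offL offR
  split_ifs <;> omega

theorem hh_pos (m k : ℕ) (hk : k < 11 * m + 5) : 0 < hh m k := by
  unfold hh
  have : (dep m k : ℝ) ≤ 11 * m + 5 := by exact_mod_cast dep_le m k hk
  linarith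

theorem hh_ne (m k : ℕ) : hh m k ≠ hh m (k + 1) := by
  unfold hh
  intro h
  apply dep_ne m k
  have : (dep m k : ℝ) = dep m (k + 1) := by linarith
  exact_mod_cast this

/-- The family of histograms. -/
noncomputable def fam (m : ℕ) : Hist where
  N := 11 * m + 5
  x := xx m
  h := hh m
  hN := by omega
  hx := fun _ _ h _ => xx_mono m h
  hpos := hh_pos m
  hne := fun k _ => hh_ne m k

end Pool.Agent.Helper25.DY
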