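import Pool.Agent.Helper25.DY.IntF
import Pool.Agent.Helper25.DY.Ext
import Pool.Agent.Helper67.DY.Final

/-!
# MP_079761_co: all the clauses of the family `fam`
-/

namespace Pool.Agent.Helper25.DY

open Pool.Agent.Helper67.PY Pool.Agent.Helper67.DY Pool.Agent.Helper54.DY

theorem mem_of {m j n : ℕ} (t : Fin 22) (h : n = vi m j t)
    {S : Finset (ZMod (2 * (fam m).N + 2))} (hn : (fam m).ix n ∈ S) : vt m j t ∈ S := by
  subst h
  exact hn

theorem cl_kA {m j r : ℕ} (hm : m = j + r + 1) {S : Finset (ZMod (2 * (fam m).N + 2))}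
    (hS : ∀ p ∈ (fam m).poly.region, ∃ v ∈ S,
      segment ℝ ((fam m).poly.pt v) p ⊆ (fam m).poly.region) :
    vt m j 0 ∈ S ∨ vt m j 1 ∈ S ∨ vt m j 2 ∈ S ∨ vt m j 9 ∈ S := by
  subst hm
  rcases int_A j r hS with h | h | h | h
  · exact Or.inl (mem_of 0 (by simp [vi, col] <;> omega) h)
  · exact Or.inr (Or.inl (mem_of 1 (by simp [vi, col] <;> omega) h))
  · exact Or.inr (Or.inr (Or.inr (mem_of 9 (by simp [vi, col] <;> omega) h)))
  · exact Or.inr (Or.inr (Or.inl (mem_of 2 (by simp [vi, col] <;> omega) h)))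

theorem cl_kB {m j r : ℕ} (hm : m = j + r + 1) {S : Finset (ZMod (2 * (fam m).N + 2))}
    (hS : ∀ p ∈ (fam m).poly.region, ∃ v ∈ S,
      segment ℝ ((fam m).poly.pt v) p ⊆ (fam m).poly.region) :
    vt m j 2 ∈ S ∨ vt m j 3 ∈ S ∨ vt m j 4 ∈ S ∨ vt m j 9 ∈ S := by
  subst hm
  rcases int_B j r hS with h | h | h | h
  · exact Or.inl (mem_of 2 (by simp [vi, col] <;> omega) h)
  · exact Or.inr (Or.inl (mem_of 3 (by simp [vi, col] <;> omega) h))
  · exact Or.inr (Or.inr (Or.inr (mem_of 9 (by simp [vi, col] <;> omega) h)))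
  · exact Or.inr (Or.inr (Or.inl (mem_of 4 (by simp [vi, col] <;> omega) h)))

theorem cl_kC {m j r : ℕ} (hm : m = j + r + 1) {S : Finset (ZMod (2 * (fam m).N + 2))}
    (hS : ∀ p ∈ (fam m).poly.region, ∃ v ∈ S,
      segment ℝ ((fam m).poly.pt v) p ⊆ (fam m).poly.region) :
    vt m j 4 ∈ S ∨ vt m j 5 ∈ S ∨ vt m j 6 ∈ S ∨ vt m j 9 ∈ S := by
  subst hm
  rcases int_C j r hS with h | h | h | h
  · exact Or.inl (mem_of 4 (by simp [vi, col] <;> omega) h)
  · exact Or.inr (Or.inl (mem_of 5 (by simp [vi, col] <;> omega) h))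
  · exact Or.inr (Or.inr (Or.inr (mem_of 9 (by simp [vi, col] <;> omega) h)))
  · exact Or.inr (Or.inr (Or.inl (mem_of 6 (by simp [vi, col] <;> omega) h)))

theorem cl_kD {m j r : ℕ} (hm : m = j + r + 1) {S : Finset (ZMod (2 * (fam m).N + 2))}
    (hS : ∀ p ∈ (fam m).poly.region, ∃ v ∈ S,
      segment ℝ ((fam m).poly.pt v) p ⊆ (fam m).poly.region) :
    vt m j 6 ∈ S ∨ vt m j 7 ∈ S ∨ vt m j 10 ∈ S ∨ vt m j 9 ∈ S := by
  subst hm
  rcases int_D j r hS with h | h | h | h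
  · exact Or.inl (mem_of 6 (by simp [vi, col] <;> omega) h)
  · exact Or.inr (Or.inl (mem_of 7 (by simp [vi, col] <;> omega) h))
  · exact Or.inr (Or.inr (Or.inr (mem_of 9 (by simp [vi, col] <;> omega) h)))
  · exact Or.inr (Or.inr (Or.inl (mem_of 10 (by simp [vi, col] <;> omega) h)))

theorem cl_kE {m j r : ℕ} (hm : m = j + r + 1) {S : Finset (ZMod (2 * (fam m).N + 2))}
    (hS : ∀ p ∈ (fam m).poly.region, ∃ v ∈ S,
      segment ℝ ((fam m).poly.pt v) p ⊆ (fam m).poly.region) :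
    vt m j 8 ∈ S ∨ vt m j 9 ∈ S ∨ vt m j 10 ∈ S ∨ vt m j 21 ∈ S := by
  subst hm
  rcases int_E j r hS with h | h | h | h
  · exact Or.inl (mem_of 8 (by simp [vi, col] <;> omega) h)
  · exact Or.inr (Or.inl (mem_of 9 (by simp [vi, col] <;> omega) h))
  · exact Or.inr (Or.inr (Or.inr (mem_of 21 (by simp [vi, col] <;> omega) h)))
  · exact Or.inr (Or.inr (Or.inl (mem_of 10 (by simp [vi, col] <;> omega) h)))

theorem cl_kF {m j r : ℕ} (hm : m = j + r + 1) {S : Finset (ZMod (2 * (fam m).N + 2))}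
    (hS : ∀ p ∈ (fam m).poly.region, ∃ v ∈ S,
      segment ℝ ((fam m).poly.pt v) p ⊆ (fam m).poly.region) :
    vt m j 10 ∈ S ∨ vt m j 11 ∈ S ∨ vt m j 12 ∈ S ∨ vt m j 21 ∈ S := by
  subst hm
  rcases int_F j r hS with h | h | h | h
  · exact Or.inl (mem_of 10 (by simp [vi, col] <;> omega) h)
  · exact Or.inr (Or.inl (mem_of 11 (by simp [vi, col] <;> omega) h))
  · exact Or.inr (Or.inr (Or.inr (mem_of 21 (by simp [vi, col] <;> omega) h)))
  · exact Or.inr (Or.inr (Or.inl (mem_of 12 (by simp [vi, col] <;> omega) h)))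

theorem cl_kT {m j r : ℕ} (hm : m = j + r + 1) {S : Finset (ZMod (2 * (fam m).N + 2))}
    (hS : ∀ p ∈ (fam m).poly.region, ∃ v ∈ S,
      segment ℝ ((fam m).poly.pt v) p ⊆ (fam m).poly.region) :
    vt m j 14 ∈ S ∨ vt m j 15 ∈ S ∨ vt m j 20 ∈ S ∨ vt m j 17 ∈ S := by
  subst hm
  rcases int_T j r hS with h | h | h | h
  · exact Or.inl (mem_of 14 (by simp [vi, col] <;> omega) h)
  · exact Or.inr (Or.inl (mem_of 15 (by simp [vi, col] <;> omega) h))
  · exact Or.inr (Or.inr (Or.inr (mem_of 17 (by simp [vi, col] <;> omega) h)))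
  · exact Or.inr (Or.inr (Or.inl (mem_of 20 (by simp [vi, col] <;> omega) h)))

theorem cl_kU {m j r : ℕ} (hm : m = j + r + 1) {S : Finset (ZMod (2 * (fam m).N + 2))}
    (hS : ∀ p ∈ (fam m).poly.region, ∃ v ∈ S,
      segment ℝ ((fam m).poly.pt v) p ⊆ (fam m).poly.region) :
    vt m j 16 ∈ S ∨ vt m j 17 ∈ S ∨ vt m j 20 ∈ S ∨ vt m j 19 ∈ S := by
  subst hm
  rcases int_U j r hS with h | h | h | h
  · exact Or.inl (mem_of 16 (by simp [vi, col] <;> omega) h)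
  · exact Or.inr (Or.inl (mem_of 17 (by simp [vi, col] <;> omega) h))
  · exact Or.inr (Or.inr (Or.inr (mem_of 19 (by simp [vi, col] <;> omega) h)))
  · exact Or.inr (Or.inr (Or.inl (mem_of 20 (by simp [vi, col] <;> omega) h)))

theorem cl_eC {m j r : ℕ} (hm : m = j + r + 1) {S : Finset (ZMod (2 * (fam m).N + 2))}
    (hS : ∀ p ∈ (fam m).poly.exterior, ∃ v ∈ S,
      segment ℝ ((fam m).poly.pt v) p ⊆ (fam m).poly.exterior) :
    vt m j 4 ∈ S ∨ vt m j 5 ∈ S ∨ vt m j 3 ∈ S := by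
  subst hm
  rcases ext_C j r hS with h | h | h
  · exact Or.inl (mem_of 4 (by simp [vi, col] <;> omega) h)
  · exact Or.inr (Or.inl (mem_of 5 (by simp [vi, col] <;> omega) h))
  · exact Or.inr (Or.inr (mem_of 3 (by simp [vi, col] <;> omega) h))

theorem cl_eD {m j r : ℕ} (hm : m = j + r + 1) {S : Finset (ZMod (2 * (fam m).N + 2))}
    (hS : ∀ p ∈ (fam m).poly.exterior, ∃ v ∈ S,
      segment ℝ ((fam m).poly.pt v) p ⊆ (fam m).poly.exterior) :
    vt m j 6 ∈ S ∨ vt m j 7 ∈ S ∨ vt m j 5 ∈ S := by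
  subst hm
  rcases ext_D j r hS with h | h | h
  · exact Or.inl (mem_of 6 (by simp [vi, col] <;> omega) h)
  · exact Or.inr (Or.inl (mem_of 7 (by simp [vi, col] <;> omega) h))
  · exact Or.inr (Or.inr (mem_of 5 (by simp [vi, col] <;> omega) h))

theorem cl_eE {m j r : ℕ} (hm : m = j + r + 1) {S : Finset (ZMod (2 * (fam m).N + 2))}
    (hS : ∀ p ∈ (fam m).poly.exterior, ∃ v ∈ S,
      segment ℝ ((fam m).poly.pt v) p ⊆ (fam m).poly.exterior) :
    vt m j 8 ∈ S ∨ vt m j 9 ∈ S ∨ vt m j 0 ∈ S := by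
  subst hm
  rcases ext_E j r hS with h | h | h
  · exact Or.inl (mem_of 8 (by simp [vi, col] <;> omega) h)
  · exact Or.inr (Or.inl (mem_of 9 (by simp [vi, col] <;> omega) h))
  · exact Or.inr (Or.inr (mem_of 0 (by simp [vi, col] <;> omega) h))

theorem cl_eF {m j r : ℕ} (hm : m = j + r + 1) {S : Finset (ZMod (2 * (fam m).N + 2))}
    (hS : ∀ p ∈ (fam m).poly.exterior, ∃ v ∈ S,
      segment ℝ ((fam m).poly.pt v) p ⊆ (fam m).poly.exterior) :
    vt m j 10 ∈ S ∨ vt m j 11 ∈ S ∨ vt m j 7 ∈ S := by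
  subst hm
  rcases ext_F j r hS with h | h | h
  · exact Or.inl (mem_of 10 (by simp [vi, col] <;> omega) h)
  · exact Or.inr (Or.inl (mem_of 11 (by simp [vi, col] <;> omega) h))
  · exact Or.inr (Or.inr (mem_of 7 (by simp [vi, col] <;> omega) h))

theorem cl_eG {m j r : ℕ} (hm : m = j + r + 1) {S : Finset (ZMod (2 * (fam m).N + 2))}
    (hS : ∀ p ∈ (fam m).poly.exterior, ∃ v ∈ S,
      segment ℝ ((fam m).poly.pt v) p ⊆ (fam m).poly.exterior) :
    vt m j 12 ∈ S ∨ vt m j 13 ∈ S ∨ vt m j 11 ∈ S := by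
  subst hm
  rcases ext_G j r hS with h | h | h
  · exact Or.inl (mem_of 12 (by simp [vi, col] <;> omega) h)
  · exact Or.inr (Or.inl (mem_of 13 (by simp [vi, col] <;> omega) h))
  · exact Or.inr (Or.inr (mem_of 11 (by simp [vi, col] <;> omega) h))

theorem cl_eT {m j r : ℕ} (hm : m = j + r + 1) {S : Finset (ZMod (2 * (fam m).N + 2))}
    (hS : ∀ p ∈ (fam m).poly.exterior, ∃ v ∈ S,
      segment ℝ ((fam m).poly.pt v) p ⊆ (fam m).poly.exterior) :
    vt m j 14 ∈ S ∨ vt m j 15 ∈ S ∨ vt m j 8 ∈ S := by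
  subst hm
  rcases ext_T j r hS with h | h | h
  · exact Or.inl (mem_of 14 (by simp [vi, col] <;> omega) h)
  · exact Or.inr (Or.inl (mem_of 15 (by simp [vi, col] <;> omega) h))
  · exact Or.inr (Or.inr (mem_of 8 (by simp [vi, col] <;> omega) h))

theorem cl_eU {m j r : ℕ} (hm : m = j + r + 1) {S : Finset (ZMod (2 * (fam m).N + 2))}
    (hS : ∀ p ∈ (fam m).poly.exterior, ∃ v ∈ S,
      segment ℝ ((fam m).poly.pt v) p ⊆ (fam m).poly.exterior) :
    vt m j 16 ∈ S ∨ vt m j 17 ∈ S ∨ vt m j 14 ∈ S := by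
  subst hm
  rcases ext_U j r hS with h | h | h
  · exact Or.inl (mem_of 16 (by simp [vi, col] <;> omega) h)
  · exact Or.inr (Or.inl (mem_of 17 (by simp [vi, col] <;> omega) h))
  · exact Or.inr (Or.inr (mem_of 14 (by simp [vi, col] <;> omega) h))

theorem cl_eV {m j r : ℕ} (hm : m = j + r + 1) {S : Finset (ZMod (2 * (fam m).N + 2))}
    (hS : ∀ p ∈ (fam m).poly.exterior, ∃ v ∈ S,
      segment ℝ ((fam m).poly.pt v) p ⊆ (fam m).poly.exterior) :
    vt m j 18 ∈ S ∨ vt m j 19 ∈ S ∨ vt m j 16 ∈ S := by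
  subst hm
  rcases ext_V j r hS with h | h | h
  · exact Or.inl (mem_of 18 (by simp [vi, col] <;> omega) h)
  · exact Or.inr (Or.inl (mem_of 19 (by simp [vi, col] <;> omega) h))
  · exact Or.inr (Or.inr (mem_of 16 (by simp [vi, col] <;> omega) h))

theorem cl_eW {m j r : ℕ} (hm : m = j + r + 1) {S : Finset (ZMod (2 * (fam m).N + 2))}
    (hS : ∀ p ∈ (fam m).poly.exterior, ∃ v ∈ S,
      segment ℝ ((fam m).poly.pt v) p ⊆ (fam m).poly.exterior) :
    vt m j 20 ∈ S ∨ vt m j 21 ∈ S ∨ vt m j 15 ∈ S ∨ vt m j 8 ∈ S := by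
  subst hm
  rcases ext_W j r hS with h | h | h | h
  · exact Or.inl (mem_of 20 (by simp [vi, col] <;> omega) h)
  · exact Or.inr (Or.inl (mem_of 21 (by simp [vi, col] <;> omega) h))
  · exact Or.inr (Or.inr (Or.inl (mem_of 15 (by simp [vi, col] <;> omega) h)))
  · exact Or.inr (Or.inr (Or.inr (mem_of 8 (by simp [vi, col] <;> omega) h)))

theorem cl_kG {m j r : ℕ} (hm : m = j + r + 1) (_hr : 0 < r) {S : Finset (ZMod (2 * (fam m).N + 2))}
    (hS : ∀ p ∈ (fam m).poly.region, ∃ v ∈ S,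
      segment ℝ ((fam m).poly.pt v) p ⊆ (fam m).poly.region) :
    vt m j 12 ∈ S ∨ vt m j 13 ∈ S ∨ vt m (j + 1) 2 ∈ S ∨ vt m j 21 ∈ S := by
  subst hm
  rcases int_G j r hS with h | h | h | h
  · exact Or.inl (mem_of 12 (by simp [vi, col] <;> omega) h)
  · exact Or.inr (Or.inl (mem_of 13 (by simp [vi, col] <;> omega) h))
  · exact Or.inr (Or.inr (Or.inr (mem_of 21 (by simp [vi, col] <;> omega) h)))
  · exact Or.inr (Or.inr (Or.inl (mem_of 2 (by simp [vi, col] <;> omega) h)))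

theorem cl_kW {m j r : ℕ} (hm : m = j + r + 1) (_hr : 0 < r) {S : Finset (ZMod (2 * (fam m).N + 2))}
    (hS : ∀ p ∈ (fam m).poly.region, ∃ v ∈ S,
      segment ℝ ((fam m).poly.pt v) p ⊆ (fam m).poly.region) :
    vt m j 20 ∈ S ∨ vt m j 21 ∈ S ∨ vt m (j + 1) 2 ∈ S ∨ vt m (j + 1) 1 ∈ S := by
  subst hm
  rcases int_W j r hS with h | h | h | h
  · exact Or.inl (mem_of 20 (by simp [vi, col] <;> omega) h)
  · exact Or.inr (Or.inl (mem_of 21 (by simp [vi, col] <;> omega) h))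
  · exact Or.inr (Or.inr (Or.inr (mem_of 1 (by simp [vi, col] <;> omega) h)))
  · exact Or.inr (Or.inr (Or.inl (mem_of 2 (by simp [vi, col] <;> omega) h)))

theorem cl_kV {m j r : ℕ} (hm : m = j + r + 1) (_hr : 0 < r) {S : Finset (ZMod (2 * (fam m).N + 2))}
    (hS : ∀ p ∈ (fam m).poly.region, ∃ v ∈ S,
      segment ℝ ((fam m).poly.pt v) p ⊆ (fam m).poly.region) :
    vt m j 18 ∈ S ∨ vt m j 19 ∈ S ∨ vt m j 20 ∈ S ∨ vt m (j + 1) 1 ∈ S := by
  subst hm
  rcases int_V j r hS with h | h | h | h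
  · exact Or.inl (mem_of 18 (by simp [vi, col] <;> omega) h)
  · exact Or.inr (Or.inl (mem_of 19 (by simp [vi, col] <;> omega) h))
  · exact Or.inr (Or.inr (Or.inr (mem_of 1 (by simp [vi, col] <;> omega) h)))
  · exact Or.inr (Or.inr (Or.inl (mem_of 20 (by simp [vi, col] <;> omega) h)))

theorem cl_eA {m j r : ℕ} (hm : m = j + r + 1) (_hr : 0 < r) {S : Finset (ZMod (2 * (fam m).N + 2))}
    (hS : ∀ p ∈ (fam m).poly.exterior, ∃ v ∈ S,
      segment ℝ ((fam m).poly.pt v) p ⊆ (fam m).poly.exterior) :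
    vt m (j + 1) 0 ∈ S ∨ vt m (j + 1) 1 ∈ S ∨ vt m j 18 ∈ S := by
  subst hm
  rcases ext_A j r hS with h | h | h
  · exact Or.inl (mem_of 0 (by simp [vi, col] <;> omega) h)
  · exact Or.inr (Or.inl (mem_of 1 (by simp [vi, col] <;> omega) h))
  · exact Or.inr (Or.inr (mem_of 18 (by simp [vi, col] <;> omega) h))

theorem cl_eB {m j r : ℕ} (hm : m = j + r + 1) (_hr : 0 < r) {S : Finset (ZMod (2 * (fam m).N + 2))}
    (hS : ∀ p ∈ (fam m).poly.exterior, ∃ v ∈ S,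
      segment ℝ ((fam m).poly.pt v) p ⊆ (fam m).poly.exterior) :
    vt m (j + 1) 2 ∈ S ∨ vt m (j + 1) 3 ∈ S ∨ vt m j 13 ∈ S := by
  subst hm
  rcases ext_B j r hS with h | h | h
  · exact Or.inl (mem_of 2 (by simp [vi, col] <;> omega) h)
  · exact Or.inr (Or.inl (mem_of 3 (by simp [vi, col] <;> omega) h))
  · exact Or.inr (Or.inr (mem_of 13 (by simp [vi, col] <;> omega) h))

theorem allClauses (m : ℕ) : AllClauses m := by
  intro S h1 h2 j hj
  have e1 : m = (j + 1) + (m - 1 - (j + 1)) + 1 := by omega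
  have e2 : m = j + (m - 1 - j) + 1 := by omega
  have e3 : 0 < m - 1 - j := by omega
  exact {
    kA := cl_kA e1 h1
    kB := cl_kB e1 h1
    kC := cl_kC e1 h1
    kD := cl_kD e1 h1
    kE := cl_kE e1 h1
    kF := cl_kF e1 h1
    kT := cl_kT e1 h1
    kU := cl_kU e1 h1
    eC := cl_eC e1 h2
    eD := cl_eD e1 h2
    eE := cl_eE e1 h2
    eF := cl_eF e1 h2
    eG := cl_eG e1 h2
    eT := cl_eT e1 h2
    eU := cl_eU e1 h2
    eV := cl_eV e1 h2
    eW := cl_eW e1 h2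
    kG := cl_kG e2 e3 h1
    kW := cl_kW e2 e3 h1
    kV := cl_kV e2 e3 h1
    eA := cl_eA e2 e3 h2
    eB := cl_eB e2 e3 h2
  }

end Pool.Agent.Helper25.DY
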