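import Pool.Agent.Helper25.DY.Val

/-!
# Interior clauses of the mountain family
-/

namespace Pool.Agent.Helper25.DY

open Set Pool.Agent.Helper67.PY Pool.Agent.Helper67.DY

theorem mul_key {q c R D E : ℝ} (h : q + c < R) (hD : 0 < D) (hE : R * D ≤ E) :
    (q + c) * D < E :=
  (mul_lt_mul_of_pos_right h hD).trans_le hE

theorem subst_PR {P R : ℝ} (hP : 1 ≤ P) (hR : 20 ≤ R) : ∃ s t : ℝ, 0 ≤ s ∧ 0 ≤ t ∧ P = 1 + s ∧
    R = 20 + t := ⟨P - 1, R - 20, by linarith, by linarith, by ring, by ring⟩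

variable {m : ℕ}

theorem clause_int {m i a b : ℕ} {px : ℝ} (hi : i < 11 * m + 5) (h1 : xx m i < px)
    (h2 : px < xx m (i + 1)) (hai : a < i) (hib : i < b) (hbN : b < 11 * m + 5)
    (hd1 : ∀ k, a < k → k < i → dep m k < dep m i)
    (hd2 : ∀ k, i < k → k < b → dep m k < dep m i)
    (hA : dep m i < dep m a) (hB : dep m i < dep m b)
    (hA' : hh m i * (px - xx m (a + 1)) < (hh m i - hh m a) * (px - xx m a))
    (hB' : hh m i * (xx m b - px) < (hh m i - hh m b) * (xx m (b + 1) - px))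
    {S : Finset (ZMod (2 * (fam m).N + 2))}
    (hS : ∀ p ∈ (fam m).poly.region, ∃ v ∈ S,
      segment ℝ ((fam m).poly.pt v) p ⊆ (fam m).poly.region) :
    (fam m).ix (2 * i + 1) ∈ S ∨ (fam m).ix (2 * i + 2) ∈ S ∨ (fam m).ix (2 * a + 2) ∈ S ∨
      (fam m).ix (2 * b + 1) ∈ S := by
  have := Hist.hit_int (fam m) (i := i) (px := px) hi h1 h2
    (fun k _ h => hh_inj m k i h) (a := a + 1) (b := b) hai hib (le_of_lt hbN)
    (fun k h3 h4 => hh_lt (hd1 k h3 h4)) (fun k h3 h4 => hh_lt (hd2 k h3 h4))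
    (fun _ => ⟨hh_lt hA, hA'⟩) (fun _ => ⟨hh_lt hB, hB'⟩) hS
  rw [show 2 * (a + 1) = 2 * a + 2 by ring] at this
  exact this

theorem pa1_A {P R : ℝ} (hP : 1 ≤ P) (hR : 20 ≤ R) : 0 < (((-(P * R)) + 1) - (-(P * R))) := by
  obtain ⟨s, t, hs, ht, rfl, rfl⟩ := subst_PR hP hR
  ring_nf
  positivity

theorem pa2_A {P R : ℝ} (hP : 1 ≤ P) (hR : 20 ≤ R) : 0 ≤ 4 * (((-(P * R)) + 1) - (-(P * R ^ 5))) - R * (((-(P * R)) + 1) - (-(P * R))) := by
  obtain ⟨s, t, hs, ht, rfl, rfl⟩ := subst_PR hP hR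
  ring_nf
  positivity

theorem pb1_A {P R : ℝ} (hP : 1 ≤ P) (hR : 20 ≤ R) : 0 < (P - ((-(P * R)) + 1)) := by
  obtain ⟨s, t, hs, ht, rfl, rfl⟩ := subst_PR hP hR
  ring_nf
  positivity

theorem pb2_A {P R : ℝ} (hP : 1 ≤ P) (hR : 20 ≤ R) : 0 ≤ 1 * (P * R ^ 2 - ((-(P * R)) + 1)) - R * (P - ((-(P * R)) + 1)) := by
  obtain ⟨s, t, hs, ht, rfl, rfl⟩ := subst_PR hP hR
  ring_nf
  positivity

theorem w_A {P R : ℝ} (hP : 1 ≤ P) (hR : 20 ≤ R) : 0 < (-P) - (-(P * R)) - 1 := by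
  obtain ⟨s, t, hs, ht, rfl, rfl⟩ := subst_PR hP hR
  ring_nf
  positivity

theorem pa1_B {P R : ℝ} (hP : 1 ≤ P) (hR : 20 ≤ R) : 0 < ((P + 1) - (-(P * R))) := by
  obtain ⟨s, t, hs, ht, rfl, rfl⟩ := subst_PR hP hR
  ring_nf
  positivity

theorem pa2_B {P R : ℝ} (hP : 1 ≤ P) (hR : 20 ≤ R) : 0 ≤ 3 * ((P + 1) - (-(P * R ^ 5))) - R * ((P + 1) - (-(P * R))) := by
  obtain ⟨s, t, hs, ht, rfl, rfl⟩ := subst_PR hP hR
  ring_nf
  positivity

theorem pb1_B {P R : ℝ} (hP : 1 ≤ P) (hR : 20 ≤ R) : 0 < (P * R ^ 2 - (P + 1)) := by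
  obtain ⟨s, t, hs, ht, rfl, rfl⟩ := subst_PR hP hR
  ring_nf
  positivity

theorem pb2_B {P R : ℝ} (hP : 1 ≤ P) (hR : 20 ≤ R) : 0 ≤ 1 * (P * R ^ 3 - (P + 1)) - R * (P * R ^ 2 - (P + 1)) := by
  obtain ⟨s, t, hs, ht, rfl, rfl⟩ := subst_PR hP hR
  ring_nf
  positivity

theorem w_B {P R : ℝ} (hP : 1 ≤ P) (hR : 20 ≤ R) : 0 < P * R ^ 2 - P - 1 := by
  obtain ⟨s, t, hs, ht, rfl, rfl⟩ := subst_PR hP hR
  ring_nf
  positivity

theorem pa1_C {P R : ℝ} (hP : 1 ≤ P) (hR : 20 ≤ R) : 0 < ((P * R ^ 2 + 1) - (-(P * R))) := by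
  obtain ⟨s, t, hs, ht, rfl, rfl⟩ := subst_PR hP hR
  ring_nf
  positivity

theorem pa2_C {P R : ℝ} (hP : 1 ≤ P) (hR : 20 ≤ R) : 0 ≤ 2 * ((P * R ^ 2 + 1) - (-(P * R ^ 5))) - R * ((P * R ^ 2 + 1) - (-(P * R))) := by
  obtain ⟨s, t, hs, ht, rfl, rfl⟩ := subst_PR hP hR
  ring_nf
  positivity

theorem pb1_C {P R : ℝ} (hP : 1 ≤ P) (hR : 20 ≤ R) : 0 < (P * R ^ 3 - (P * R ^ 2 + 1)) := by
  obtain ⟨s, t, hs, ht, rfl, rfl⟩ := subst_PR hP hR
  ring_nf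
  positivity

theorem pb2_C {P R : ℝ} (hP : 1 ≤ P) (hR : 20 ≤ R) : 0 ≤ 1 * (P * R ^ 4 - (P * R ^ 2 + 1)) - R * (P * R ^ 3 - (P * R ^ 2 + 1)) := by
  obtain ⟨s, t, hs, ht, rfl, rfl⟩ := subst_PR hP hR
  ring_nf
  positivity

theorem w_C {P R : ℝ} (hP : 1 ≤ P) (hR : 20 ≤ R) : 0 < P * R ^ 3 - P * R ^ 2 - 1 := by
  obtain ⟨s, t, hs, ht, rfl, rfl⟩ := subst_PR hP hR
  ring_nf
  positivity

theorem pa1_D {P R : ℝ} (hP : 1 ≤ P) (hR : 20 ≤ R) : 0 < ((P * R ^ 3 + 1) - (-(P * R))) := by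
  obtain ⟨s, t, hs, ht, rfl, rfl⟩ := subst_PR hP hR
  ring_nf
  positivity

theorem pa2_D {P R : ℝ} (hP : 1 ≤ P) (hR : 20 ≤ R) : 0 ≤ 1 * ((P * R ^ 3 + 1) - (-(P * R ^ 5))) - R * ((P * R ^ 3 + 1) - (-(P * R))) := by
  obtain ⟨s, t, hs, ht, rfl, rfl⟩ := subst_PR hP hR
  ring_nf
  positivity

theorem pb1_D {P R : ℝ} (hP : 1 ≤ P) (hR : 20 ≤ R) : 0 < (P * R ^ 4 - (P * R ^ 3 + 1)) := by
  obtain ⟨s, t, hs, ht, rfl, rfl⟩ := subst_PR hP hR
  ring_nf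
  positivity

theorem pb2_D {P R : ℝ} (hP : 1 ≤ P) (hR : 20 ≤ R) : 0 ≤ 5 * (P * R ^ 6 - (P * R ^ 3 + 1)) - R * (P * R ^ 4 - (P * R ^ 3 + 1)) := by
  obtain ⟨s, t, hs, ht, rfl, rfl⟩ := subst_PR hP hR
  ring_nf
  positivity

theorem w_D {P R : ℝ} (hP : 1 ≤ P) (hR : 20 ≤ R) : 0 < P * R ^ 4 - P * R ^ 3 - 1 := by
  obtain ⟨s, t, hs, ht, rfl, rfl⟩ := subst_PR hP hR
  ring_nf
  positivity

theorem pa1_E {P R : ℝ} (hP : 1 ≤ P) (hR : 20 ≤ R) : 0 < (((-(P * R ^ 5)) + 1) - (-(P * R ^ 5))) := by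
  obtain ⟨s, t, hs, ht, rfl, rfl⟩ := subst_PR hP hR
  ring_nf
  positivity

theorem pa2_E {P R : ℝ} (hP : 1 ≤ P) (hR : 20 ≤ R) : 0 ≤ 6 * (((-(P * R ^ 5)) + 1) - (-(P * R ^ 5 + R ^ 3))) - R * (((-(P * R ^ 5)) + 1) - (-(P * R ^ 5))) := by
  obtain ⟨s, t, hs, ht, rfl, rfl⟩ := subst_PR hP hR
  ring_nf
  positivity

theorem pb1_E {P R : ℝ} (hP : 1 ≤ P) (hR : 20 ≤ R) : 0 < (P * R ^ 4 - ((-(P * R ^ 5)) + 1)) := by
  obtain ⟨s, t, hs, ht, rfl, rfl⟩ := subst_PR hP hR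
  ring_nf
  positivity

theorem pb2_E {P R : ℝ} (hP : 1 ≤ P) (hR : 20 ≤ R) : 0 ≤ 4 * (P * R ^ 6 - ((-(P * R ^ 5)) + 1)) - R * (P * R ^ 4 - ((-(P * R ^ 5)) + 1)) := by
  obtain ⟨s, t, hs, ht, rfl, rfl⟩ := subst_PR hP hR
  ring_nf
  positivity

theorem w_E {P R : ℝ} (hP : 1 ≤ P) (hR : 20 ≤ R) : 0 < (-(P * R)) - (-(P * R ^ 5)) - 1 := by
  obtain ⟨s, t, hs, ht, rfl, rfl⟩ := subst_PR hP hR
  ring_nf
  positivity

theorem pa1_W {P R : ℝ} (hP : 1 ≤ P) (hR : 20 ≤ R) : 0 < (((-(P * R ^ 5 + R ^ 3)) + 1) - (-(P * R ^ 7))) := by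
  obtain ⟨s, t, hs, ht, rfl, rfl⟩ := subst_PR hP hR
  ring_nf
  positivity

theorem pa2_W {P R : ℝ} (hP : 1 ≤ P) (hR : 20 ≤ R) : 0 ≤ 1 * (((-(P * R ^ 5 + R ^ 3)) + 1) - (-(P * R ^ 8))) - R * (((-(P * R ^ 5 + R ^ 3)) + 1) - (-(P * R ^ 7))) := by
  obtain ⟨s, t, hs, ht, rfl, rfl⟩ := subst_PR hP hR
  ring_nf
  positivity

theorem pb1_W {P R : ℝ} (hP : 1 ≤ P) (hR : 20 ≤ R) : 0 < (P * R ^ 7 - ((-(P * R ^ 5 + R ^ 3)) + 1)) := by
  obtain ⟨s, t, hs, ht, rfl, rfl⟩ := subst_PR hP hR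
  ring_nf
  positivity

theorem pb2_W {P R : ℝ} (hP : 1 ≤ P) (hR : 20 ≤ R) : 0 ≤ 2 * (P * R ^ 9 - ((-(P * R ^ 5 + R ^ 3)) + 1)) - R * (P * R ^ 7 - ((-(P * R ^ 5 + R ^ 3)) + 1)) := by
  obtain ⟨s, t, hs, ht, rfl, rfl⟩ := subst_PR hP hR
  ring_nf
  positivity

theorem w_W {P R : ℝ} (hP : 1 ≤ P) (hR : 20 ≤ R) : 0 < (-(P * R ^ 5)) - (-(P * R ^ 5 + R ^ 3)) - 1 := by
  obtain ⟨s, t, hs, ht, rfl, rfl⟩ := subst_PR hP hR
  ring_nf
  positivity

theorem pa1_T {P R : ℝ} (hP : 1 ≤ P) (hR : 20 ≤ R) : 0 < (((-(P * R ^ 5 + R ^ 3)) - 1) - (-(P * R ^ 5 + R ^ 3 + R))) := by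
  obtain ⟨s, t, hs, ht, rfl, rfl⟩ := subst_PR hP hR
  ring_nf
  positivity

theorem pa2_T {P R : ℝ} (hP : 1 ≤ P) (hR : 20 ≤ R) : 0 ≤ 1 * (((-(P * R ^ 5 + R ^ 3)) - 1) - (-(P * R ^ 5 + R ^ 3 + R + R ^ 2))) - R * (((-(P * R ^ 5 + R ^ 3)) - 1) - (-(P * R ^ 5 + R ^ 3 + R))) := by
  obtain ⟨s, t, hs, ht, rfl, rfl⟩ := subst_PR hP hR
  ring_nf
  positivity

theorem pb1_T {P R : ℝ} (hP : 1 ≤ P) (hR : 20 ≤ R) : 0 < ((-(P * R ^ 5 + R ^ 3)) - ((-(P * R ^ 5 + R ^ 3)) - 1)) := by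
  obtain ⟨s, t, hs, ht, rfl, rfl⟩ := subst_PR hP hR
  ring_nf
  positivity

theorem pb2_T {P R : ℝ} (hP : 1 ≤ P) (hR : 20 ≤ R) : 0 ≤ 5 * ((-(P * R ^ 5)) - ((-(P * R ^ 5 + R ^ 3)) - 1)) - R * ((-(P * R ^ 5 + R ^ 3)) - ((-(P * R ^ 5 + R ^ 3)) - 1)) := by
  obtain ⟨s, t, hs, ht, rfl, rfl⟩ := subst_PR hP hR
  ring_nf
  positivity

theorem w_T {P R : ℝ} (hP : 1 ≤ P) (hR : 20 ≤ R) : 0 < (-(P * R ^ 5 + R ^ 3)) - (-(P * R ^ 5 + R ^ 3 + R)) - 1 := by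
  obtain ⟨s, t, hs, ht, rfl, rfl⟩ := subst_PR hP hR
  ring_nf
  positivity

theorem pa1_U {P R : ℝ} (hP : 1 ≤ P) (hR : 20 ≤ R) : 0 < (((-(P * R ^ 5 + R ^ 3 + R)) - 1) - (-(P * R ^ 5 + R ^ 3 + R + R ^ 2))) := by
  obtain ⟨s, t, hs, ht, rfl, rfl⟩ := subst_PR hP hR
  ring_nf
  positivity

theorem pa2_U {P R : ℝ} (hP : 1 ≤ P) (hR : 20 ≤ R) : 0 ≤ 1 * (((-(P * R ^ 5 + R ^ 3 + R)) - 1) - (-(P * R ^ 7))) - R * (((-(P * R ^ 5 + R ^ 3 + R)) - 1) - (-(P * R ^ 5 + R ^ 3 + R + R ^ 2))) := by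
  obtain ⟨s, t, hs, ht, rfl, rfl⟩ := subst_PR hP hR
  ring_nf
  positivity

theorem pb1_U {P R : ℝ} (hP : 1 ≤ P) (hR : 20 ≤ R) : 0 < ((-(P * R ^ 5 + R ^ 3)) - ((-(P * R ^ 5 + R ^ 3 + R)) - 1)) := by
  obtain ⟨s, t, hs, ht, rfl, rfl⟩ := subst_PR hP hR
  ring_nf
  positivity

theorem pb2_U {P R : ℝ} (hP : 1 ≤ P) (hR : 20 ≤ R) : 0 ≤ 4 * ((-(P * R ^ 5)) - ((-(P * R ^ 5 + R ^ 3 + R)) - 1)) - R * ((-(P * R ^ 5 + R ^ 3)) - ((-(P * R ^ 5 + R ^ 3 + R)) - 1)) := by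
  obtain ⟨s, t, hs, ht, rfl, rfl⟩ := subst_PR hP hR
  ring_nf
  positivity

theorem w_U {P R : ℝ} (hP : 1 ≤ P) (hR : 20 ≤ R) : 0 < (-(P * R ^ 5 + R ^ 3 + R)) - (-(P * R ^ 5 + R ^ 3 + R + R ^ 2)) - 1 := by
  obtain ⟨s, t, hs, ht, rfl, rfl⟩ := subst_PR hP hR
  ring_nf
  positivity

theorem pa1_V {P R : ℝ} (hP : 1 ≤ P) (hR : 20 ≤ R) : 0 < (((-(P * R ^ 5 + R ^ 3 + R + R ^ 2)) - 1) - (-(P * R ^ 7))) := by
  obtain ⟨s, t, hs, ht, rfl, rfl⟩ := subst_PR hP hR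
  ring_nf
  positivity

theorem pa2_V {P R : ℝ} (hP : 1 ≤ P) (hR : 20 ≤ R) : 0 ≤ 4 * (((-(P * R ^ 5 + R ^ 3 + R + R ^ 2)) - 1) - (-(P * R ^ 8))) - R * (((-(P * R ^ 5 + R ^ 3 + R + R ^ 2)) - 1) - (-(P * R ^ 7))) := by
  obtain ⟨s, t, hs, ht, rfl, rfl⟩ := subst_PR hP hR
  ring_nf
  positivity

theorem pb1_V {P R : ℝ} (hP : 1 ≤ P) (hR : 20 ≤ R) : 0 < ((-(P * R ^ 5 + R ^ 3)) - ((-(P * R ^ 5 + R ^ 3 + R + R ^ 2)) - 1)) := by
  obtain ⟨s, t, hs, ht, rfl, rfl⟩ := subst_PR hP hR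
  ring_nf
  positivity

theorem pb2_V {P R : ℝ} (hP : 1 ≤ P) (hR : 20 ≤ R) : 0 ≤ 3 * ((-(P * R ^ 5)) - ((-(P * R ^ 5 + R ^ 3 + R + R ^ 2)) - 1)) - R * ((-(P * R ^ 5 + R ^ 3)) - ((-(P * R ^ 5 + R ^ 3 + R + R ^ 2)) - 1)) := by
  obtain ⟨s, t, hs, ht, rfl, rfl⟩ := subst_PR hP hR
  ring_nf
  positivity

theorem w_V {P R : ℝ} (hP : 1 ≤ P) (hR : 20 ≤ R) : 0 < (-(P * R ^ 5 + R ^ 3 + R + R ^ 2)) - (-(P * R ^ 7)) - 1 := by
  obtain ⟨s, t, hs, ht, rfl, rfl⟩ := subst_PR hP hR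
  ring_nf
  positivity

theorem int_A (j r : ℕ) {S : Finset (ZMod (2 * (fam (j + r + 1)).N + 2))}
    (hS : ∀ p ∈ (fam (j + r + 1)).poly.region, ∃ v ∈ S,
      segment ℝ ((fam (j + r + 1)).poly.pt v) p ⊆ (fam (j + r + 1)).poly.region) :
    (fam (j + r + 1)).ix (2 * (6 * r + 7) + 1) ∈ S ∨ (fam (j + r + 1)).ix (2 * (6 * r + 7) + 2) ∈ S ∨
      (fam (j + r + 1)).ix (2 * (6 * r + 6) + 2) ∈ S ∨ (fam (j + r + 1)).ix (2 * (11 * j + 6 * r + 9) + 1) ∈ S := by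
  have hR := RR_ge (j + r + 1)
  have hRr := RR_val j r
  have hP := PP_one (j + r + 1) j
  have x1 := xl7 j r
  have x2 := xl8 j r
  have xa := xl6 j r
  have xa1 := xl7 j r
  have xb := xr0 j r
  have xb1 := xr1 j r
  have h1 := hl7 j r
  have ha := hl6 j r
  have hb := hr0 j r
  have d1 := dl7 j r
  have da := dl6 j r
  have db := dr0 j r
  refine clause_int (i := 6 * r + 7) (a := 6 * r + 6) (b := 11 * j + 6 * r + 9) (px := xx (j + r + 1) (6 * r + 7) + 1)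
    (by omega) ?_ ?_ (by omega) (by omega) (by omega) ?_ ?_ (by rw [d1, da]; omega)
    (by rw [d1, db]; omega) ?_ ?_ hS
  · linarith
  · rw [show 6 * r + 7 + 1 = 6 * r + 8 from rfl, x1, x2]
    have := w_A hP hR
    linarith
  · intro k h3 h4
    rw [d1]
    unfold dep offL offR
    split_ifs <;> omega
  · intro k h3 h4
    rw [d1]
    unfold dep offL offR
    split_ifs <;> omega
  · rw [show 6 * r + 6 + 1 = 6 * r + 7 from rfl, xa, xa1, h1, ha]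
    have e1 := pa1_A hP hR
    have e2 := pa2_A hP hR
    have e3 := mul_key (q := 11 * r) (c := 17) (by linarith) e1 (sub_nonneg.1 e2)
    linarith
  · rw [show 11 * j + 6 * r + 9 + 1 = 11 * j + 6 * r + 10 from rfl, xb, xb1, h1, hb, x1]
    have e1 := pb1_A hP hR
    have e2 := pb2_A hP hR
    have e3 := mul_key (q := 11 * r) (c := 17) (by linarith) e1 (sub_nonneg.1 e2)
    linarith

theorem int_B (j r : ℕ) {S : Finset (ZMod (2 * (fam (j + r + 1)).N + 2))}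
    (hS : ∀ p ∈ (fam (j + r + 1)).poly.region, ∃ v ∈ S,
      segment ℝ ((fam (j + r + 1)).poly.pt v) p ⊆ (fam (j + r + 1)).poly.region) :
    (fam (j + r + 1)).ix (2 * (11 * j + 6 * r + 9) + 1) ∈ S ∨ (fam (j + r + 1)).ix (2 * (11 * j + 6 * r + 9) + 2) ∈ S ∨
      (fam (j + r + 1)).ix (2 * (6 * r + 6) + 2) ∈ S ∨ (fam (j + r + 1)).ix (2 * (11 * j + 6 * r + 10) + 1) ∈ S := by
  have hR := RR_ge (j + r + 1)
  have hRr := RR_val j r
  have hP := PP_one (j + r + 1) j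
  have x1 := xr0 j r
  have x2 := xr1 j r
  have xa := xl6 j r
  have xa1 := xl7 j r
  have xb := xr1 j r
  have xb1 := xr2 j r
  have h1 := hr0 j r
  have ha := hl6 j r
  have hb := hr1 j r
  have d1 := dr0 j r
  have da := dl6 j r
  have db := dr1 j r
  refine clause_int (i := 11 * j + 6 * r + 9) (a := 6 * r + 6) (b := 11 * j + 6 * r + 10) (px := xx (j + r + 1) (11 * j + 6 * r + 9) + 1)
    (by omega) ?_ ?_ (by omega) (by omega) (by omega) ?_ ?_ (by rw [d1, da]; omega)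
    (by rw [d1, db]; omega) ?_ ?_ hS
  · linarith
  · rw [show 11 * j + 6 * r + 9 + 1 = 11 * j + 6 * r + 10 from rfl, x1, x2]
    have := w_B hP hR
    linarith
  · intro k h3 h4
    rw [d1]
    unfold dep offL offR
    split_ifs <;> omega
  · intro k h3 h4
    rw [d1]
    unfold dep offL offR
    split_ifs <;> omega
  · rw [show 6 * r + 6 + 1 = 6 * r + 7 from rfl, xa, xa1, h1, ha, x1]
    have e1 := pa1_B hP hR
    have e2 := pa2_B hP hR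
    have e3 := mul_key (q := 11 * r) (c := 16) (by linarith) e1 (sub_nonneg.1 e2)
    linarith
  · rw [show 11 * j + 6 * r + 10 + 1 = 11 * j + 6 * r + 11 from rfl, xb, xb1, h1, hb, x1]
    have e1 := pb1_B hP hR
    have e2 := pb2_B hP hR
    have e3 := mul_key (q := 11 * r) (c := 16) (by linarith) e1 (sub_nonneg.1 e2)
    linarith

theorem int_C (j r : ℕ) {S : Finset (ZMod (2 * (fam (j + r + 1)).N + 2))}
    (hS : ∀ p ∈ (fam (j + r + 1)).poly.region, ∃ v ∈ S,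
      segment ℝ ((fam (j + r + 1)).poly.pt v) p ⊆ (fam (j + r + 1)).poly.region) :
    (fam (j + r + 1)).ix (2 * (11 * j + 6 * r + 10) + 1) ∈ S ∨ (fam (j + r + 1)).ix (2 * (11 * j + 6 * r + 10) + 2) ∈ S ∨
      (fam (j + r + 1)).ix (2 * (6 * r + 6) + 2) ∈ S ∨ (fam (j + r + 1)).ix (2 * (11 * j + 6 * r + 11) + 1) ∈ S := by
  have hR := RR_ge (j + r + 1)
  have hRr := RR_val j r
  have hP := PP_one (j + r + 1) j
  have x1 := xr1 j r
  have x2 := xr2 j r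
  have xa := xl6 j r
  have xa1 := xl7 j r
  have xb := xr2 j r
  have xb1 := xr3 j r
  have h1 := hr1 j r
  have ha := hl6 j r
  have hb := hr2 j r
  have d1 := dr1 j r
  have da := dl6 j r
  have db := dr2 j r
  refine clause_int (i := 11 * j + 6 * r + 10) (a := 6 * r + 6) (b := 11 * j + 6 * r + 11) (px := xx (j + r + 1) (11 * j + 6 * r + 10) + 1)
    (by omega) ?_ ?_ (by omega) (by omega) (by omega) ?_ ?_ (by rw [d1, da]; omega)
    (by rw [d1, db]; omega) ?_ ?_ hS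
  · linarith
  · rw [show 11 * j + 6 * r + 10 + 1 = 11 * j + 6 * r + 11 from rfl, x1, x2]
    have := w_C hP hR
    linarith
  · intro k h3 h4
    rw [d1]
    unfold dep offL offR
    split_ifs <;> omega
  · intro k h3 h4
    rw [d1]
    unfold dep offL offR
    split_ifs <;> omega
  · rw [show 6 * r + 6 + 1 = 6 * r + 7 from rfl, xa, xa1, h1, ha, x1]
    have e1 := pa1_C hP hR
    have e2 := pa2_C hP hR
    have e3 := mul_key (q := 11 * r) (c := 15) (by linarith) e1 (sub_nonneg.1 e2)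
    linarith
  · rw [show 11 * j + 6 * r + 11 + 1 = 11 * j + 6 * r + 12 from rfl, xb, xb1, h1, hb, x1]
    have e1 := pb1_C hP hR
    have e2 := pb2_C hP hR
    have e3 := mul_key (q := 11 * r) (c := 15) (by linarith) e1 (sub_nonneg.1 e2)
    linarith

theorem int_D (j r : ℕ) {S : Finset (ZMod (2 * (fam (j + r + 1)).N + 2))}
    (hS : ∀ p ∈ (fam (j + r + 1)).poly.region, ∃ v ∈ S,
      segment ℝ ((fam (j + r + 1)).poly.pt v) p ⊆ (fam (j + r + 1)).poly.region) :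
    (fam (j + r + 1)).ix (2 * (11 * j + 6 * r + 11) + 1) ∈ S ∨ (fam (j + r + 1)).ix (2 * (11 * j + 6 * r + 11) + 2) ∈ S ∨
      (fam (j + r + 1)).ix (2 * (6 * r + 6) + 2) ∈ S ∨ (fam (j + r + 1)).ix (2 * (11 * j + 6 * r + 12) + 1) ∈ S := by
  have hR := RR_ge (j + r + 1)
  have hRr := RR_val j r
  have hP := PP_one (j + r + 1) j
  have x1 := xr2 j r
  have x2 := xr3 j r
  have xa := xl6 j r
  have xa1 := xl7 j r
  have xb := xr3 j r
  have xb1 := xr4 j r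
  have h1 := hr2 j r
  have ha := hl6 j r
  have hb := hr3 j r
  have d1 := dr2 j r
  have da := dl6 j r
  have db := dr3 j r
  refine clause_int (i := 11 * j + 6 * r + 11) (a := 6 * r + 6) (b := 11 * j + 6 * r + 12) (px := xx (j + r + 1) (11 * j + 6 * r + 11) + 1)
    (by omega) ?_ ?_ (by omega) (by omega) (by omega) ?_ ?_ (by rw [d1, da]; omega)
    (by rw [d1, db]; omega) ?_ ?_ hS
  · linarith
  · rw [show 11 * j + 6 * r + 11 + 1 = 11 * j + 6 * r + 12 from rfl, x1, x2]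
    have := w_D hP hR
    linarith
  · intro k h3 h4
    rw [d1]
    unfold dep offL offR
    split_ifs <;> omega
  · intro k h3 h4
    rw [d1]
    unfold dep offL offR
    split_ifs <;> omega
  · rw [show 6 * r + 6 + 1 = 6 * r + 7 from rfl, xa, xa1, h1, ha, x1]
    have e1 := pa1_D hP hR
    have e2 := pa2_D hP hR
    have e3 := mul_key (q := 11 * r) (c := 14) (by linarith) e1 (sub_nonneg.1 e2)
    linarith
  · rw [show 11 * j + 6 * r + 12 + 1 = 11 * j + 6 * r + 13 from rfl, xb, xb1, h1, hb, x1]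
    have e1 := pb1_D hP hR
    have e2 := pb2_D hP hR
    have e3 := mul_key (q := 11 * r) (c := 14) (by linarith) e1 (sub_nonneg.1 e2)
    linarith

theorem int_E (j r : ℕ) {S : Finset (ZMod (2 * (fam (j + r + 1)).N + 2))}
    (hS : ∀ p ∈ (fam (j + r + 1)).poly.region, ∃ v ∈ S,
      segment ℝ ((fam (j + r + 1)).poly.pt v) p ⊆ (fam (j + r + 1)).poly.region) :
    (fam (j + r + 1)).ix (2 * (6 * r + 6) + 1) ∈ S ∨ (fam (j + r + 1)).ix (2 * (6 * r + 6) + 2) ∈ S ∨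
      (fam (j + r + 1)).ix (2 * (6 * r + 5) + 2) ∈ S ∨ (fam (j + r + 1)).ix (2 * (11 * j + 6 * r + 12) + 1) ∈ S := by
  have hR := RR_ge (j + r + 1)
  have hRr := RR_val j r
  have hP := PP_one (j + r + 1) j
  have x1 := xl6 j r
  have x2 := xl7 j r
  have xa := xl5 j r
  have xa1 := xl6 j r
  have xb := xr3 j r
  have xb1 := xr4 j r
  have h1 := hl6 j r
  have ha := hl5 j r
  have hb := hr3 j r
  have d1 := dl6 j r
  have da := dl5 j r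
  have db := dr3 j r
  refine clause_int (i := 6 * r + 6) (a := 6 * r + 5) (b := 11 * j + 6 * r + 12) (px := xx (j + r + 1) (6 * r + 6) + 1)
    (by omega) ?_ ?_ (by omega) (by omega) (by omega) ?_ ?_ (by rw [d1, da]; omega)
    (by rw [d1, db]; omega) ?_ ?_ hS
  · linarith
  · rw [show 6 * r + 6 + 1 = 6 * r + 7 from rfl, x1, x2]
    have := w_E hP hR
    linarith
  · intro k h3 h4
    rw [d1]
    unfold dep offL offR
    split_ifs <;> omega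
  · intro k h3 h4
    rw [d1]
    unfold dep offL offR
    split_ifs <;> omega
  · rw [show 6 * r + 5 + 1 = 6 * r + 6 from rfl, xa, xa1, h1, ha]
    have e1 := pa1_E hP hR
    have e2 := pa2_E hP hR
    have e3 := mul_key (q := 11 * r) (c := 13) (by linarith) e1 (sub_nonneg.1 e2)
    linarith
  · rw [show 11 * j + 6 * r + 12 + 1 = 11 * j + 6 * r + 13 from rfl, xb, xb1, h1, hb, x1]
    have e1 := pb1_E hP hR
    have e2 := pb2_E hP hR
    have e3 := mul_key (q := 11 * r) (c := 13) (by linarith) e1 (sub_nonneg.1 e2)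
    linarith

theorem int_W (j r : ℕ) {S : Finset (ZMod (2 * (fam (j + r + 1)).N + 2))}
    (hS : ∀ p ∈ (fam (j + r + 1)).poly.region, ∃ v ∈ S,
      segment ℝ ((fam (j + r + 1)).poly.pt v) p ⊆ (fam (j + r + 1)).poly.region) :
    (fam (j + r + 1)).ix (2 * (6 * r + 5) + 1) ∈ S ∨ (fam (j + r + 1)).ix (2 * (6 * r + 5) + 2) ∈ S ∨
      (fam (j + r + 1)).ix (2 * (6 * r + 1) + 2) ∈ S ∨ (fam (j + r + 1)).ix (2 * (11 * j + 6 * r + 14) + 1) ∈ S := by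
  have hR := RR_ge (j + r + 1)
  have hRr := RR_val j r
  have hP := PP_one (j + r + 1) j
  have x1 := xl5 j r
  have x2 := xl6 j r
  have xa := xl1 j r
  have xa1 := xl2 j r
  have xb := xr5 j r
  have xb1 := xr6 j r
  have h1 := hl5 j r
  have ha := hl1 j r
  have hb := hr5 j r
  have d1 := dl5 j r
  have da := dl1 j r
  have db := dr5 j r
  refine clause_int (i := 6 * r + 5) (a := 6 * r + 1) (b := 11 * j + 6 * r + 14) (px := xx (j + r + 1) (6 * r + 5) + 1)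
    (by omega) ?_ ?_ (by omega) (by omega) (by omega) ?_ ?_ (by rw [d1, da]; omega)
    (by rw [d1, db]; omega) ?_ ?_ hS
  · linarith
  · rw [show 6 * r + 5 + 1 = 6 * r + 6 from rfl, x1, x2]
    have := w_W hP hR
    linarith
  · intro k h3 h4
    rw [d1]
    unfold dep offL offR
    split_ifs <;> omega
  · intro k h3 h4
    rw [d1]
    unfold dep offL offR
    split_ifs <;> omega
  · rw [show 6 * r + 1 + 1 = 6 * r + 2 from rfl, xa, xa1, h1, ha, x1]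
    have e1 := pa1_W hP hR
    have e2 := pa2_W hP hR
    have e3 := mul_key (q := 11 * r) (c := 7) (by linarith) e1 (sub_nonneg.1 e2)
    linarith
  · rw [show 11 * j + 6 * r + 14 + 1 = 11 * j + 6 * r + 15 from rfl, xb, xb1, h1, hb, x1]
    have e1 := pb1_W hP hR
    have e2 := pb2_W hP hR
    have e3 := mul_key (q := 11 * r) (c := 7) (by linarith) e1 (sub_nonneg.1 e2)
    linarith

theorem int_T (j r : ℕ) {S : Finset (ZMod (2 * (fam (j + r + 1)).N + 2))}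
    (hS : ∀ p ∈ (fam (j + r + 1)).poly.region, ∃ v ∈ S,
      segment ℝ ((fam (j + r + 1)).poly.pt v) p ⊆ (fam (j + r + 1)).poly.region) :
    (fam (j + r + 1)).ix (2 * (6 * r + 4) + 1) ∈ S ∨ (fam (j + r + 1)).ix (2 * (6 * r + 4) + 2) ∈ S ∨
      (fam (j + r + 1)).ix (2 * (6 * r + 3) + 2) ∈ S ∨ (fam (j + r + 1)).ix (2 * (6 * r + 5) + 1) ∈ S := by
  have hR := RR_ge (j + r + 1)
  have hRr := RR_val j r
  have hP := PP_one (j + r + 1) j
  have x1 := xl4 j r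
  have x2 := xl5 j r
  have xa := xl3 j r
  have xa1 := xl4 j r
  have xb := xl5 j r
  have xb1 := xl6 j r
  have h1 := hl4 j r
  have ha := hl3 j r
  have hb := hl5 j r
  have d1 := dl4 j r
  have da := dl3 j r
  have db := dl5 j r
  refine clause_int (i := 6 * r + 4) (a := 6 * r + 3) (b := 6 * r + 5) (px := xx (j + r + 1) (6 * r + 5) - 1)
    (by omega) ?_ ?_ (by omega) (by omega) (by omega) ?_ ?_ (by rw [d1, da]; omega)
    (by rw [d1, db]; omega) ?_ ?_ hS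
  · rw [show 6 * r + 4 + 1 = 6 * r + 5 from rfl, x1, x2]
    have := w_T hP hR
    linarith
  · show xx (j + r + 1) (6 * r + 5) - 1 < xx (j + r + 1) (6 * r + 5)
    linarith
  · intro k h3 h4
    rw [d1]
    unfold dep offL offR
    split_ifs <;> omega
  · intro k h3 h4
    rw [d1]
    unfold dep offL offR
    split_ifs <;> omega
  · rw [show 6 * r + 3 + 1 = 6 * r + 4 from rfl, xa, xa1, h1, ha, x2]
    have e1 := pa1_T hP hR
    have e2 := pa2_T hP hR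
    have e3 := mul_key (q := 11 * r) (c := 12) (by linarith) e1 (sub_nonneg.1 e2)
    linarith
  · rw [show 6 * r + 5 + 1 = 6 * r + 6 from rfl, xb, xb1, h1, hb]
    have e1 := pb1_T hP hR
    have e2 := pb2_T hP hR
    have e3 := mul_key (q := 11 * r) (c := 12) (by linarith) e1 (sub_nonneg.1 e2)
    linarith

theorem int_U (j r : ℕ) {S : Finset (ZMod (2 * (fam (j + r + 1)).N + 2))}
    (hS : ∀ p ∈ (fam (j + r + 1)).poly.region, ∃ v ∈ S,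
      segment ℝ ((fam (j + r + 1)).poly.pt v) p ⊆ (fam (j + r + 1)).poly.region) :
    (fam (j + r + 1)).ix (2 * (6 * r + 3) + 1) ∈ S ∨ (fam (j + r + 1)).ix (2 * (6 * r + 3) + 2) ∈ S ∨
      (fam (j + r + 1)).ix (2 * (6 * r + 2) + 2) ∈ S ∨ (fam (j + r + 1)).ix (2 * (6 * r + 5) + 1) ∈ S := by
  have hR := RR_ge (j + r + 1)
  have hRr := RR_val j r
  have hP := PP_one (j + r + 1) j
  have x1 := xl3 j r
  have x2 := xl4 j r
  have xa := xl2 j r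
  have xa1 := xl3 j r
  have xb := xl5 j r
  have xb1 := xl6 j r
  have h1 := hl3 j r
  have ha := hl2 j r
  have hb := hl5 j r
  have d1 := dl3 j r
  have da := dl2 j r
  have db := dl5 j r
  refine clause_int (i := 6 * r + 3) (a := 6 * r + 2) (b := 6 * r + 5) (px := xx (j + r + 1) (6 * r + 4) - 1)
    (by omega) ?_ ?_ (by omega) (by omega) (by omega) ?_ ?_ (by rw [d1, da]; omega)
    (by rw [d1, db]; omega) ?_ ?_ hS
  · rw [show 6 * r + 3 + 1 = 6 * r + 4 from rfl, x1, x2]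
    have := w_U hP hR
    linarith
  · show xx (j + r + 1) (6 * r + 4) - 1 < xx (j + r + 1) (6 * r + 4)
    linarith
  · intro k h3 h4
    rw [d1]
    unfold dep offL offR
    split_ifs <;> omega
  · intro k h3 h4
    rw [d1]
    unfold dep offL offR
    split_ifs <;> omega
  · rw [show 6 * r + 2 + 1 = 6 * r + 3 from rfl, xa, xa1, h1, ha, x2]
    have e1 := pa1_U hP hR
    have e2 := pa2_U hP hR
    have e3 := mul_key (q := 11 * r) (c := 11) (by linarith) e1 (sub_nonneg.1 e2)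
    linarith
  · rw [show 6 * r + 5 + 1 = 6 * r + 6 from rfl, xb, xb1, h1, hb, x2]
    have e1 := pb1_U hP hR
    have e2 := pb2_U hP hR
    have e3 := mul_key (q := 11 * r) (c := 11) (by linarith) e1 (sub_nonneg.1 e2)
    linarith

theorem int_V (j r : ℕ) {S : Finset (ZMod (2 * (fam (j + r + 1)).N + 2))}
    (hS : ∀ p ∈ (fam (j + r + 1)).poly.region, ∃ v ∈ S,
      segment ℝ ((fam (j + r + 1)).poly.pt v) p ⊆ (fam (j + r + 1)).poly.region) :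
    (fam (j + r + 1)).ix (2 * (6 * r + 2) + 1) ∈ S ∨ (fam (j + r + 1)).ix (2 * (6 * r + 2) + 2) ∈ S ∨
      (fam (j + r + 1)).ix (2 * (6 * r + 1) + 2) ∈ S ∨ (fam (j + r + 1)).ix (2 * (6 * r + 5) + 1) ∈ S := by
  have hR := RR_ge (j + r + 1)
  have hRr := RR_val j r
  have hP := PP_one (j + r + 1) j
  have x1 := xl2 j r
  have x2 := xl3 j r
  have xa := xl1 j r
  have xa1 := xl2 j r
  have xb := xl5 j r
  have xb1 := xl6 j r
  have h1 := hl2 j r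
  have ha := hl1 j r
  have hb := hl5 j r
  have d1 := dl2 j r
  have da := dl1 j r
  have db := dl5 j r
  refine clause_int (i := 6 * r + 2) (a := 6 * r + 1) (b := 6 * r + 5) (px := xx (j + r + 1) (6 * r + 3) - 1)
    (by omega) ?_ ?_ (by omega) (by omega) (by omega) ?_ ?_ (by rw [d1, da]; omega)
    (by rw [d1, db]; omega) ?_ ?_ hS
  · rw [show 6 * r + 2 + 1 = 6 * r + 3 from rfl, x1, x2]
    have := w_V hP hR
    linarith
  · show xx (j + r + 1) (6 * r + 3) - 1 < xx (j + r + 1) (6 * r + 3)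
    linarith
  · intro k h3 h4
    rw [d1]
    unfold dep offL offR
    split_ifs <;> omega
  · intro k h3 h4
    rw [d1]
    unfold dep offL offR
    split_ifs <;> omega
  · rw [show 6 * r + 1 + 1 = 6 * r + 2 from rfl, xa, xa1, h1, ha, x2]
    have e1 := pa1_V hP hR
    have e2 := pa2_V hP hR
    have e3 := mul_key (q := 11 * r) (c := 10) (by linarith) e1 (sub_nonneg.1 e2)
    linarith
  · rw [show 6 * r + 5 + 1 = 6 * r + 6 from rfl, xb, xb1, h1, hb, x2]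
    have e1 := pb1_V hP hR
    have e2 := pb2_V hP hR
    have e3 := mul_key (q := 11 * r) (c := 10) (by linarith) e1 (sub_nonneg.1 e2)
    linarith

end Pool.Agent.Helper25.DY
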