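import Pool.Agent.Helper25.DY.IntA

/-!
# The interior clauses of the columns `F` and `G`
-/

namespace Pool.Agent.Helper25.DY

open Set Pool.Agent.Helper67.PY Pool.Agent.Helper67.DY

/-- **What is seen of the top of column `i` inside the region**, with a condition for every vertex on
the left side. -/
theorem see_int' (Q : Hist) {i : ℕ} (hi : i < Q.N) {px : ℝ} (h1 : Q.x i < px)
    (h2 : px < Q.x (i + 1))
    (hinj : ∀ k, k < Q.N → Q.h k = Q.h i → k = i)
    {a b : ℕ} (hai : a < i) (hib : i < b) (hbN : b < Q.N)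
    (hbet1 : ∀ k, a < k → k < i → Q.h i < Q.h k)
    (hbet2 : ∀ k, i < k → k < b → Q.h i < Q.h k)
    (ha : Q.h a < Q.h i)
    (hak : ∀ k, k < a → Q.h k < Q.h i →
      (Q.h i - Q.h k) * (px - Q.x (a + 1)) < (Q.h i - Q.h a) * (px - Q.x (k + 1)))
    (ha0 : Q.h i * (px - Q.x (a + 1)) < (Q.h i - Q.h a) * (px - Q.x 0))
    (hb : Q.h b < Q.h i)
    (hb' : Q.h i * (Q.x b - px) < (Q.h i - Q.h b) * (Q.x (b + 1) - px))
    {v : ZMod (2 * Q.N + 2)} (hs : segment ℝ (Q.poly.pt v) (px, Q.h i) ⊆ Q.poly.region) :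
    v = Q.ix (2 * i + 1) ∨ v = Q.ix (2 * i + 2) ∨ v = Q.ix (2 * a + 2) ∨
      v = Q.ix (2 * b + 1) := by
  rw [segment_symm] at hs
  have hhi := Q.hpos i hi
  have xmono : ∀ c d, c ≤ d → d ≤ Q.N → Q.x c ≤ Q.x d := by
    intro c d hcd hd
    rcases hcd.eq_or_lt with h | h
    · rw [h]
    · exact (Q.hx c d h hd).le
  have right : ∀ w : ℝ × ℝ, 0 ≤ w.2 → w.2 ≤ Q.h i → Q.x (b + 1) ≤ w.1 →
      ¬ segment ℝ (px, Q.h i) w ⊆ Q.poly.region := by
    intro w hw0 hw hw1 hseg
    have e1 := Q.hx' b hbN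
    have e2 : px < Q.x b := h2.trans_le (xmono _ _ (by omega) hbN.le)
    refine Q.not_far_right hbN e2 hb hw (by linarith) ?_ hseg
    have e3 : (Q.h i - w.2) * (Q.x b - px) ≤ Q.h i * (Q.x b - px) :=
      mul_le_mul_of_nonneg_right (by linarith) (by linarith)
    have e4 : (Q.h i - Q.h b) * (Q.x (b + 1) - px) ≤ (Q.h i - Q.h b) * (w.1 - px) :=
      mul_le_mul_of_nonneg_left (by linarith) (by linarith)
    linarith
  have e2 : Q.x (a + 1) < px := (xmono _ _ (by omega) hi.le).trans_lt h1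
  have left : ∀ k, k ≤ a → Q.h k < Q.h i → ∀ w : ℝ, w < Q.x (a + 1) → w ≤ Q.x (k + 1) →
      ¬ segment ℝ (px, Q.h i) (w, Q.h k) ⊆ Q.poly.region := by
    intro k hka hk w hw1 hw2 hseg
    refine Q.not_far_left (i := i) (j := a) (by omega) e2 ha
      (v := (w, Q.h k)) hk.le hw1 ?_ hseg
    show (Q.h i - Q.h k) * (px - Q.x (a + 1)) < (Q.h i - Q.h a) * (px - w)
    rcases hka.lt_or_eq with h | h
    · have e3 := hak k h hk
      have e4 : (Q.h i - Q.h a) * (px - Q.x (k + 1)) ≤ (Q.h i - Q.h a) * (px - w) :=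
        mul_le_mul_of_nonneg_left (by linarith) (by linarith)
      linarith
    · subst h
      exact mul_lt_mul_of_pos_left (by linarith) (by linarith)
  rcases Q.pt_cases v with rfl | rfl | ⟨k, hk, rfl⟩ | ⟨k, hk, rfl⟩
  · exfalso
    rw [Q.pt_ix (by omega), Q.V_zero] at hs
    refine Q.not_far_left (i := i) (j := a) (by omega) e2 ha (v := (Q.x 0, 0)) hhi.le
      (Q.hx 0 (a + 1) (by omega) (by omega)) ?_ hs
    show (Q.h i - 0) * (px - Q.x (a + 1)) < (Q.h i - Q.h a) * (px - Q.x 0)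
    linarith
  · exfalso
    rw [Q.pt_ix (by omega), Q.V_last] at hs
    exact right (Q.x Q.N, 0) le_rfl hhi.le (xmono _ _ hbN le_rfl) hs
  · rw [Q.pt_l hk] at hs
    have hhk := Q.hpos k hk
    rcases lt_trichotomy (Q.h k) (Q.h i) with h | h | h
    · rcases lt_trichotomy k i with h3 | h3 | h3
      · exfalso
        have h4 : k ≤ a := by
          by_contra h5
          exact absurd (hbet1 k (by omega) h3) (by linarith)
        exact left k h4 h (Q.x k) (Q.hx k (a + 1) (by omega) (by omega))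
          (xmono _ _ (by omega) (by omega)) hs
      · subst h3
        exact Or.inl rfl
      · have h4 : b ≤ k := by
          by_contra h5
          exact absurd (hbet2 k h3 (by omega)) (by linarith)
        rcases h4.eq_or_lt with h5 | h5
        · subst h5
          exact Or.inr (Or.inr (Or.inr rfl))
        · exfalso
          exact right (Q.x k, Q.h k) hhk.le h.le (xmono _ _ (by omega) (by omega)) hs
    · rw [hinj k hk h]
      exact Or.inl rfl
    · exact (Q.not_up hi h1 h2 (v := (Q.x k, Q.h k)) h hs).elim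
  · rw [Q.pt_r hk] at hs
    have hhk := Q.hpos k hk
    rcases lt_trichotomy (Q.h k) (Q.h i) with h | h | h
    · rcases lt_trichotomy k i with h3 | h3 | h3
      · have h4 : k ≤ a := by
          by_contra h5
          exact absurd (hbet1 k (by omega) h3) (by linarith)
        rcases h4.lt_or_eq with h5 | h5
        · exfalso
          exact left k h4 h (Q.x (k + 1)) (Q.hx (k + 1) (a + 1) (by omega) (by omega)) le_rfl hs
        · subst h5
          exact Or.inr (Or.inr (Or.inl rfl))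
      · subst h3
        exact Or.inr (Or.inl rfl)
      · exfalso
        have h4 : b ≤ k := by
          by_contra h5
          exact absurd (hbet2 k h3 (by omega)) (by linarith)
        exact right (Q.x (k + 1), Q.h k) hhk.le h.le (xmono _ _ (by omega) (by omega)) hs
    · rw [hinj k hk h]
      exact Or.inr (Or.inl rfl)
    · exact (Q.not_up hi h1 h2 (v := (Q.x (k + 1), Q.h k)) h hs).elim

/-- The left conditions for `F` and `G`. -/
theorem left_cond {j r i : ℕ} {px c u : ℝ}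
    (hc : hh (j + r + 1) i = 11 * r + c) (hc7 : 8 ≤ c) (hc9 : c ≤ 9)
    (hu : u = px - xx (j + r + 1) (6 * r + 6)) (hu0 : 0 < u)
    (hV : (c - 6) * u < (c - 7) * (px - xx (j + r + 1) (6 * r + 2)))
    (hA : RR (j + r + 1) * u ≤ (c - 7) * (px - xx (j + r + 1) (6 * r + 1))) :
    (∀ k, k < 6 * r + 5 → hh (j + r + 1) k < hh (j + r + 1) i →
      (hh (j + r + 1) i - hh (j + r + 1) k) * (px - xx (j + r + 1) (6 * r + 5 + 1)) <
        (hh (j + r + 1) i - hh (j + r + 1) (6 * r + 5)) * (px - xx (j + r + 1) (k + 1))) ∧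
    hh (j + r + 1) i * (px - xx (j + r + 1) (6 * r + 5 + 1)) <
      (hh (j + r + 1) i - hh (j + r + 1) (6 * r + 5)) * (px - xx (j + r + 1) 0) := by
  have hRr := RR_val j r
  have h5 := hl5 j r
  rw [show 6 * r + 5 + 1 = 6 * r + 6 from rfl, ← hu, h5, hc]
  have hr : (0 : ℝ) ≤ r := Nat.cast_nonneg r
  have far : ∀ w : ℝ, 0 ≤ w → ∀ k, k ≤ 6 * r + 1 → (11 * r + c - w) * u <
      (11 * r + c - (11 * r + 7)) * (px - xx (j + r + 1) k) := by
    intro w hw k hk
    have e1 : xx (j + r + 1) k ≤ xx (j + r + 1) (6 * r + 1) := (xx_mono _).monotone hk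
    have e2 : (11 * r + c - w) * u ≤ (11 * r + c) * u :=
      mul_le_mul_of_nonneg_right (by linarith) hu0.le
    have e3 : (11 * r + c) * u < RR (j + r + 1) * u :=
      mul_lt_mul_of_pos_right (by linarith) hu0
    have e4 : (c - 7) * (px - xx (j + r + 1) (6 * r + 1)) ≤ (c - 7) * (px - xx (j + r + 1) k) :=
      mul_le_mul_of_nonneg_left (by linarith) (by linarith)
    have e5 : (11 * (r : ℝ) + c - (11 * r + 7)) = c - 7 := by ring
    rw [e5]
    linarith
  constructor
  · intro k hk hki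
    rcases Nat.lt_or_ge k (6 * r + 1) with h | h
    · have h0 : 0 ≤ hh (j + r + 1) k := (hh_pos _ _ (by omega)).le
      exact far _ h0 (k + 1) (by omega)
    · rcases h.lt_or_eq with h | h
      · exfalso
        have hk' : k = 6 * r + 2 ∨ k = 6 * r + 3 ∨ k = 6 * r + 4 := by omega
        rcases hk' with rfl | rfl | rfl
        · have := hl2 j r
          rw [this] at hki
          linarith
        · have := hl3 j r
          rw [this] at hki
          linarith
        · have := hl4 j r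
          rw [this] at hki
          linarith
      · subst h
        have := hl1 j r
        rw [this, show 6 * r + 1 + 1 = 6 * r + 2 from rfl,
          show (11 * (r : ℝ) + c - (11 * r + 6)) = c - 6 by ring,
          show (11 * (r : ℝ) + c - (11 * r + 7)) = c - 7 by ring]
        exact hV
  · have := far 0 le_rfl 0 (by omega)
    rw [sub_zero] at this
    exact this


theorem pos_FG {P R : ℝ} (hP : 1 ≤ P) (hR : 20 ≤ R) :
    0 < (P * R ^ 4 + 1) - (-(P * R ^ 5)) ∧
    0 < 2 * (P * R ^ 4 + 1 - -(P * R ^ 7)) - 3 * (P * R ^ 4 + 1 - -(P * R ^ 5)) ∧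
    0 ≤ 2 * (P * R ^ 4 + 1 - -(P * R ^ 8)) - R * (P * R ^ 4 + 1 - -(P * R ^ 5)) ∧
    0 < P * R ^ 6 - (P * R ^ 4 + 1) ∧
    0 ≤ 1 * (P * R ^ 7 - (P * R ^ 4 + 1)) - R * (P * R ^ 6 - (P * R ^ 4 + 1)) ∧
    0 < (P * R ^ 6 + 1) - (-(P * R ^ 5)) ∧
    0 < 1 * (P * R ^ 6 + 1 - -(P * R ^ 7)) - 2 * (P * R ^ 6 + 1 - -(P * R ^ 5)) ∧
    0 ≤ 1 * (P * R ^ 6 + 1 - -(P * R ^ 8)) - R * (P * R ^ 6 + 1 - -(P * R ^ 5)) ∧
    0 < P * R ^ 7 - (P * R ^ 6 + 1) ∧
    0 ≤ 3 * (P * R ^ 9 - (P * R ^ 6 + 1)) - R * (P * R ^ 7 - (P * R ^ 6 + 1)) := by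
  obtain ⟨s, t, hs, ht, rfl, rfl⟩ := subst_PR hP hR
  refine ⟨?_, ?_, ?_, ?_, ?_, ?_, ?_, ?_, ?_, ?_⟩ <;> · ring_nf; positivity

theorem int_F (j r : ℕ) {S : Finset (ZMod (2 * (fam (j + r + 1)).N + 2))}
    (hS : ∀ p ∈ (fam (j + r + 1)).poly.region, ∃ v ∈ S,
      segment ℝ ((fam (j + r + 1)).poly.pt v) p ⊆ (fam (j + r + 1)).poly.region) :
    (fam (j + r + 1)).ix (2 * (11 * j + 6 * r + 12) + 1) ∈ S ∨
      (fam (j + r + 1)).ix (2 * (11 * j + 6 * r + 12) + 2) ∈ S ∨
      (fam (j + r + 1)).ix (2 * (6 * r + 5) + 2) ∈ S ∨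
      (fam (j + r + 1)).ix (2 * (11 * j + 6 * r + 13) + 1) ∈ S := by
  have hR := RR_ge (j + r + 1)
  have hRr := RR_val j r
  have hP := PP_one (j + r + 1) j
  obtain ⟨p1, p2, p3, p4, p5, p6, p7, p8, p9, p10⟩ := pos_FG hP hR
  have x1 := xr3 j r
  have x2 := xr4 j r
  have x3 := xr5 j r
  have a1 := xl1 j r
  have a2 := xl2 j r
  have a6 := xl6 j r
  have h1 := hr3 j r
  have h5 := hl5 j r
  have hb := hr4 j r
  have d1 := dr3 j r
  have d5 := dl5 j r
  have db := dr4 j r
  obtain ⟨c1, c2⟩ := left_cond (j := j) (r := r) (i := 11 * j + 6 * r + 12)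
    (px := xx (j + r + 1) (11 * j + 6 * r + 12) + 1) (c := 9)
    (u := xx (j + r + 1) (11 * j + 6 * r + 12) + 1 - xx (j + r + 1) (6 * r + 6)) h1
    (by norm_num) (by norm_num) rfl (by rw [x1, a6]; linarith)
    (by rw [x1, a6, a2]; linarith) (by rw [x1, a6, a1]; linarith)
  have hsee : ∀ v, segment ℝ ((fam (j + r + 1)).poly.pt v)
      (xx (j + r + 1) (11 * j + 6 * r + 12) + 1, (fam (j + r + 1)).h (11 * j + 6 * r + 12)) ⊆
        (fam (j + r + 1)).poly.region → _ := fun v hv =>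
    see_int' (fam (j + r + 1)) (i := 11 * j + 6 * r + 12) (px := xx (j + r + 1) (11 * j + 6 * r + 12) + 1)
      (a := 6 * r + 5) (b := 11 * j + 6 * r + 13)
      (by rw [fam_N]; omega) (by rw [fam_x]; linarith)
      (by
        show xx (j + r + 1) (11 * j + 6 * r + 12) + 1 < xx (j + r + 1) (11 * j + 6 * r + 13)
        rw [x1, x2]; linarith)
      (fun k _ h => hh_inj _ k _ h) (by omega) (by omega) (by rw [fam_N]; omega)
      (fun k h3 h4 => hh_lt (by
        rw [d1]
        unfold dep offL offR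
        split_ifs <;> omega))
      (fun k h3 h4 => absurd h4 (by omega)) (hh_lt (by rw [d1, d5]; omega)) c1 c2
      (hh_lt (by rw [d1, db]; omega))
      (by
        show hh (j + r + 1) (11 * j + 6 * r + 12) * (xx (j + r + 1) (11 * j + 6 * r + 13) -
          (xx (j + r + 1) (11 * j + 6 * r + 12) + 1)) <
          (hh (j + r + 1) (11 * j + 6 * r + 12) - hh (j + r + 1) (11 * j + 6 * r + 13)) *
          (xx (j + r + 1) (11 * j + 6 * r + 14) - (xx (j + r + 1) (11 * j + 6 * r + 12) + 1))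
        rw [h1, hb, x1, x2, x3]
        have e3 := mul_key (q := 11 * r) (c := 9) (by linarith) p4 (sub_nonneg.1 p5)
        linarith)
      (v := v) hv
  obtain ⟨v, hv, hs⟩ := hS _ (Hist.top_region (fam (j + r + 1)) (k := 11 * j + 6 * r + 12)
    (a := xx (j + r + 1) (11 * j + 6 * r + 12) + 1) (by rw [fam_N]; omega) (by rw [fam_x]; linarith)
    (by
      show xx (j + r + 1) (11 * j + 6 * r + 12) + 1 ≤ xx (j + r + 1) (11 * j + 6 * r + 13)
      rw [x1, x2]; linarith))
  rcases hsee v hs with rfl | rfl | rfl | rfl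
  · exact Or.inl hv
  · exact Or.inr (Or.inl hv)
  · exact Or.inr (Or.inr (Or.inl hv))
  · exact Or.inr (Or.inr (Or.inr hv))

theorem int_G (j r : ℕ) {S : Finset (ZMod (2 * (fam (j + r + 1)).N + 2))}
    (hS : ∀ p ∈ (fam (j + r + 1)).poly.region, ∃ v ∈ S,
      segment ℝ ((fam (j + r + 1)).poly.pt v) p ⊆ (fam (j + r + 1)).poly.region) :
    (fam (j + r + 1)).ix (2 * (11 * j + 6 * r + 13) + 1) ∈ S ∨
      (fam (j + r + 1)).ix (2 * (11 * j + 6 * r + 13) + 2) ∈ S ∨
      (fam (j + r + 1)).ix (2 * (6 * r + 5) + 2) ∈ S ∨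
      (fam (j + r + 1)).ix (2 * (11 * j + 6 * r + 14) + 1) ∈ S := by
  have hR := RR_ge (j + r + 1)
  have hRr := RR_val j r
  have hP := PP_one (j + r + 1) j
  obtain ⟨p1, p2, p3, p4, p5, p6, p7, p8, p9, p10⟩ := pos_FG hP hR
  have x1 := xr4 j r
  have x2 := xr5 j r
  have x3 := xr6 j r
  have a1 := xl1 j r
  have a2 := xl2 j r
  have a6 := xl6 j r
  have h1 := hr4 j r
  have h5 := hl5 j r
  have hb := hr5 j r
  have d1 := dr4 j r
  have d5 := dl5 j r
  have db := dr5 j r
  obtain ⟨c1, c2⟩ := left_cond (j := j) (r := r) (i := 11 * j + 6 * r + 13)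
    (px := xx (j + r + 1) (11 * j + 6 * r + 13) + 1) (c := 8)
    (u := xx (j + r + 1) (11 * j + 6 * r + 13) + 1 - xx (j + r + 1) (6 * r + 6)) h1
    (by norm_num) (by norm_num) rfl (by rw [x1, a6]; linarith)
    (by rw [x1, a6, a2]; linarith) (by rw [x1, a6, a1]; linarith)
  have hsee : ∀ v, segment ℝ ((fam (j + r + 1)).poly.pt v)
      (xx (j + r + 1) (11 * j + 6 * r + 13) + 1, (fam (j + r + 1)).h (11 * j + 6 * r + 13)) ⊆
        (fam (j + r + 1)).poly.region → _ := fun v hv =>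
    see_int' (fam (j + r + 1)) (i := 11 * j + 6 * r + 13) (px := xx (j + r + 1) (11 * j + 6 * r + 13) + 1)
      (a := 6 * r + 5) (b := 11 * j + 6 * r + 14)
      (by rw [fam_N]; omega) (by rw [fam_x]; linarith)
      (by
        show xx (j + r + 1) (11 * j + 6 * r + 13) + 1 < xx (j + r + 1) (11 * j + 6 * r + 14)
        rw [x1, x2]; linarith)
      (fun k _ h => hh_inj _ k _ h) (by omega) (by omega) (by rw [fam_N]; omega)
      (fun k h3 h4 => hh_lt (by
        rw [d1]
        unfold dep offL offR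
        split_ifs <;> omega))
      (fun k h3 h4 => absurd h4 (by omega)) (hh_lt (by rw [d1, d5]; omega)) c1 c2
      (hh_lt (by rw [d1, db]; omega))
      (by
        show hh (j + r + 1) (11 * j + 6 * r + 13) * (xx (j + r + 1) (11 * j + 6 * r + 14) -
          (xx (j + r + 1) (11 * j + 6 * r + 13) + 1)) <
          (hh (j + r + 1) (11 * j + 6 * r + 13) - hh (j + r + 1) (11 * j + 6 * r + 14)) *
          (xx (j + r + 1) (11 * j + 6 * r + 15) - (xx (j + r + 1) (11 * j + 6 * r + 13) + 1))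
        rw [h1, hb, x1, x2, x3]
        have e3 := mul_key (q := 11 * r) (c := 8) (by linarith) p9 (sub_nonneg.1 p10)
        linarith)
      (v := v) hv
  obtain ⟨v, hv, hs⟩ := hS _ (Hist.top_region (fam (j + r + 1)) (k := 11 * j + 6 * r + 13)
    (a := xx (j + r + 1) (11 * j + 6 * r + 13) + 1) (by rw [fam_N]; omega) (by rw [fam_x]; linarith)
    (by
      show xx (j + r + 1) (11 * j + 6 * r + 13) + 1 ≤ xx (j + r + 1) (11 * j + 6 * r + 14)
      rw [x1, x2]; linarith))
  rcases hsee v hs with rfl | rfl | rfl | rfl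
  · exact Or.inl hv
  · exact Or.inr (Or.inl hv)
  · exact Or.inr (Or.inr (Or.inl hv))
  · exact Or.inr (Or.inr (Or.inr hv))

end Pool.Agent.Helper25.DY
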