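import Pool.Agent.Helper25.DY.Fam
import Pool.Agent.Helper67.DY.See

/-!
# Values of the coordinates of the mountain family
-/

namespace Pool.Agent.Helper25.DY

open Pool.Agent.Helper67.DY

theorem xl8 (j r : ℕ) : xx (j + r + 1) (6 * r + 8) = - PP (j + r + 1) j := by
  unfold xx
  rw [if_pos (by omega), show 6 * (j + r + 1) + 2 - (6 * r + 8) = 6 * j by omega, lam_0]

theorem xl7 (j r : ℕ) : xx (j + r + 1) (6 * r + 7) = - (PP (j + r + 1) j * RR (j + r + 1)) := by
  unfold xx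
  rw [if_pos (by omega), show 6 * (j + r + 1) + 2 - (6 * r + 7) = 6 * j + 1 by omega, lam_1]

theorem xl6 (j r : ℕ) : xx (j + r + 1) (6 * r + 6) = - (PP (j + r + 1) j * RR (j + r + 1) ^ 5) := by
  unfold xx
  rw [if_pos (by omega), show 6 * (j + r + 1) + 2 - (6 * r + 6) = 6 * j + 2 by omega, lam_2]

theorem xl5 (j r : ℕ) : xx (j + r + 1) (6 * r + 5) = - (PP (j + r + 1) j * RR (j + r + 1) ^ 5 + RR (j + r + 1) ^ 3) := by
  unfold xx
  rw [if_pos (by omega), show 6 * (j + r + 1) + 2 - (6 * r + 5) = 6 * j + 3 by omega, lam_3]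

theorem xl4 (j r : ℕ) : xx (j + r + 1) (6 * r + 4) = - (PP (j + r + 1) j * RR (j + r + 1) ^ 5 + RR (j + r + 1) ^ 3 + RR (j + r + 1)) := by
  unfold xx
  rw [if_pos (by omega), show 6 * (j + r + 1) + 2 - (6 * r + 4) = 6 * j + 4 by omega, lam_4]

theorem xl3 (j r : ℕ) : xx (j + r + 1) (6 * r + 3) = - (PP (j + r + 1) j * RR (j + r + 1) ^ 5 + RR (j + r + 1) ^ 3 + RR (j + r + 1) + RR (j + r + 1) ^ 2) := by
  unfold xx
  rw [if_pos (by omega), show 6 * (j + r + 1) + 2 - (6 * r + 3) = 6 * j + 5 by omega, lam_5]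

theorem xl2 (j r : ℕ) : xx (j + r + 1) (6 * r + 2) = - (PP (j + r + 1) j * RR (j + r + 1) ^ 7) := by
  unfold xx
  rw [if_pos (by omega), show 6 * (j + r + 1) + 2 - (6 * r + 2) = 6 * (j + 1) by omega, lam_0, PP_succ]

theorem xl1 (j r : ℕ) : xx (j + r + 1) (6 * r + 1) = - (PP (j + r + 1) j * RR (j + r + 1) ^ 8) := by
  unfold xx
  rw [if_pos (by omega), show 6 * (j + r + 1) + 2 - (6 * r + 1) = 6 * (j + 1) + 1 by omega, lam_1, PP_succ]
  ring

theorem xr0 (j r : ℕ) : xx (j + r + 1) (11 * j + 6 * r + 9) = PP (j + r + 1) j := by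
  unfold xx
  rw [if_neg (by omega), show 11 * j + 6 * r + 9 - (6 * (j + r + 1) + 3) = 5 * j by omega, rho_0]

theorem xr1 (j r : ℕ) : xx (j + r + 1) (11 * j + 6 * r + 10) = PP (j + r + 1) j * RR (j + r + 1) ^ 2 := by
  unfold xx
  rw [if_neg (by omega), show 11 * j + 6 * r + 10 - (6 * (j + r + 1) + 3) = 5 * j + 1 by omega, rho_1]

theorem xr2 (j r : ℕ) : xx (j + r + 1) (11 * j + 6 * r + 11) = PP (j + r + 1) j * RR (j + r + 1) ^ 3 := by
  unfold xx
  rw [if_neg (by omega), show 11 * j + 6 * r + 11 - (6 * (j + r + 1) + 3) = 5 * j + 2 by omega, rho_2]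

theorem xr3 (j r : ℕ) : xx (j + r + 1) (11 * j + 6 * r + 12) = PP (j + r + 1) j * RR (j + r + 1) ^ 4 := by
  unfold xx
  rw [if_neg (by omega), show 11 * j + 6 * r + 12 - (6 * (j + r + 1) + 3) = 5 * j + 3 by omega, rho_3]

theorem xr4 (j r : ℕ) : xx (j + r + 1) (11 * j + 6 * r + 13) = PP (j + r + 1) j * RR (j + r + 1) ^ 6 := by
  unfold xx
  rw [if_neg (by omega), show 11 * j + 6 * r + 13 - (6 * (j + r + 1) + 3) = 5 * j + 4 by omega, rho_4]

theorem xr5 (j r : ℕ) : xx (j + r + 1) (11 * j + 6 * r + 14) = PP (j + r + 1) j * RR (j + r + 1) ^ 7 := by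
  unfold xx
  rw [if_neg (by omega), show 11 * j + 6 * r + 14 - (6 * (j + r + 1) + 3) = 5 * (j + 1) by omega, rho_0, PP_succ]

theorem xr6 (j r : ℕ) : xx (j + r + 1) (11 * j + 6 * r + 15) = PP (j + r + 1) j * RR (j + r + 1) ^ 9 := by
  unfold xx
  rw [if_neg (by omega), show 11 * j + 6 * r + 15 - (6 * (j + r + 1) + 3) = 5 * (j + 1) + 1 by omega, rho_1, PP_succ]
  ring

theorem dl7 (j r : ℕ) : dep (j + r + 1) (6 * r + 7) = 11 * j + 1 := by
  unfold dep offL
  rw [if_pos (by omega)]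
  split_ifs <;> omega

theorem hl7 (j r : ℕ) : hh (j + r + 1) (6 * r + 7) = 11 * r + 17 := by
  unfold hh
  rw [dl7]
  push_cast
  ring

theorem dl6 (j r : ℕ) : dep (j + r + 1) (6 * r + 6) = 11 * j + 5 := by
  unfold dep offL
  rw [if_pos (by omega)]
  split_ifs <;> omega

theorem hl6 (j r : ℕ) : hh (j + r + 1) (6 * r + 6) = 11 * r + 13 := by
  unfold hh
  rw [dl6]
  push_cast
  ring

theorem dl5 (j r : ℕ) : dep (j + r + 1) (6 * r + 5) = 11 * j + 11 := by
  unfold dep offL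
  rw [if_pos (by omega)]
  split_ifs <;> omega

theorem hl5 (j r : ℕ) : hh (j + r + 1) (6 * r + 5) = 11 * r + 7 := by
  unfold hh
  rw [dl5]
  push_cast
  ring

theorem dl4 (j r : ℕ) : dep (j + r + 1) (6 * r + 4) = 11 * j + 6 := by
  unfold dep offL
  rw [if_pos (by omega)]
  split_ifs <;> omega

theorem hl4 (j r : ℕ) : hh (j + r + 1) (6 * r + 4) = 11 * r + 12 := by
  unfold hh
  rw [dl4]
  push_cast
  ring

theorem dl3 (j r : ℕ) : dep (j + r + 1) (6 * r + 3) = 11 * j + 7 := by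
  unfold dep offL
  rw [if_pos (by omega)]
  split_ifs <;> omega

theorem hl3 (j r : ℕ) : hh (j + r + 1) (6 * r + 3) = 11 * r + 11 := by
  unfold hh
  rw [dl3]
  push_cast
  ring

theorem dl2 (j r : ℕ) : dep (j + r + 1) (6 * r + 2) = 11 * j + 8 := by
  unfold dep offL
  rw [if_pos (by omega)]
  split_ifs <;> omega

theorem hl2 (j r : ℕ) : hh (j + r + 1) (6 * r + 2) = 11 * r + 10 := by
  unfold hh
  rw [dl2]
  push_cast
  ring

theorem dl1 (j r : ℕ) : dep (j + r + 1) (6 * r + 1) = 11 * j + 12 := by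
  unfold dep offL
  rw [if_pos (by omega)]
  split_ifs <;> omega

theorem hl1 (j r : ℕ) : hh (j + r + 1) (6 * r + 1) = 11 * r + 6 := by
  unfold hh
  rw [dl1]
  push_cast
  ring

theorem dr0 (j r : ℕ) : dep (j + r + 1) (11 * j + 6 * r + 9) = 11 * j + 2 := by
  unfold dep offR
  rw [if_neg (by omega), if_neg (by omega)]
  split_ifs <;> omega

theorem hr0 (j r : ℕ) : hh (j + r + 1) (11 * j + 6 * r + 9) = 11 * r + 16 := by
  unfold hh
  rw [dr0]
  push_cast
  ring

theorem dr1 (j r : ℕ) : dep (j + r + 1) (11 * j + 6 * r + 10) = 11 * j + 3 := by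
  unfold dep offR
  rw [if_neg (by omega), if_neg (by omega)]
  split_ifs <;> omega

theorem hr1 (j r : ℕ) : hh (j + r + 1) (11 * j + 6 * r + 10) = 11 * r + 15 := by
  unfold hh
  rw [dr1]
  push_cast
  ring

theorem dr2 (j r : ℕ) : dep (j + r + 1) (11 * j + 6 * r + 11) = 11 * j + 4 := by
  unfold dep offR
  rw [if_neg (by omega), if_neg (by omega)]
  split_ifs <;> omega

theorem hr2 (j r : ℕ) : hh (j + r + 1) (11 * j + 6 * r + 11) = 11 * r + 14 := by
  unfold hh
  rw [dr2]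
  push_cast
  ring

theorem dr3 (j r : ℕ) : dep (j + r + 1) (11 * j + 6 * r + 12) = 11 * j + 9 := by
  unfold dep offR
  rw [if_neg (by omega), if_neg (by omega)]
  split_ifs <;> omega

theorem hr3 (j r : ℕ) : hh (j + r + 1) (11 * j + 6 * r + 12) = 11 * r + 9 := by
  unfold hh
  rw [dr3]
  push_cast
  ring

theorem dr4 (j r : ℕ) : dep (j + r + 1) (11 * j + 6 * r + 13) = 11 * j + 10 := by
  unfold dep offR
  rw [if_neg (by omega), if_neg (by omega)]
  split_ifs <;> omega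

theorem hr4 (j r : ℕ) : hh (j + r + 1) (11 * j + 6 * r + 13) = 11 * r + 8 := by
  unfold hh
  rw [dr4]
  push_cast
  ring

theorem dr5 (j r : ℕ) : dep (j + r + 1) (11 * j + 6 * r + 14) = 11 * j + 13 := by
  unfold dep offR
  rw [if_neg (by omega), if_neg (by omega)]
  split_ifs <;> omega

theorem hr5 (j r : ℕ) : hh (j + r + 1) (11 * j + 6 * r + 14) = 11 * r + 5 := by
  unfold hh
  rw [dr5]
  push_cast
  ring

theorem dep_inj (m a b : ℕ) (h : dep m a = dep m b) : a = b := by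
  unfold dep offL offR at h
  split_ifs at h <;> omega

theorem hh_inj (m a b : ℕ) (h : hh m a = hh m b) : a = b := by
  unfold hh at h
  apply dep_inj m a b
  have : (dep m a : ℝ) = dep m b := by linarith
  exact_mod_cast this

theorem hh_lt {m a b : ℕ} (h : dep m b < dep m a) : hh m a < hh m b := by
  unfold hh
  have : (dep m b : ℝ) < dep m a := by exact_mod_cast h
  linarith

theorem dep_lt {m a b : ℕ} (h : hh m a < hh m b) : dep m b < dep m a := by
  unfold hh at h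
  have : (dep m b : ℝ) < dep m a := by linarith
  exact_mod_cast this

theorem hh_le (m a : ℕ) : hh m a ≤ 11 * m + 7 := by
  unfold hh
  have : (0 : ℝ) ≤ dep m a := Nat.cast_nonneg _
  linarith

theorem RR_val (j r : ℕ) : (11 : ℝ) * r + 31 ≤ RR (j + r + 1) := by
  unfold RR
  push_cast
  have : (0 : ℝ) ≤ j := Nat.cast_nonneg j
  linarith

theorem hh_le' (j r a : ℕ) : hh (j + r + 1) a + 13 ≤ RR (j + r + 1) := by
  have := hh_le (j + r + 1) a
  unfold RR
  push_cast at this ⊢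
  linarith

theorem fam_x (m k : ℕ) : (fam m).x k = xx m k := rfl

theorem fam_h (m k : ℕ) : (fam m).h k = hh m k := rfl

theorem fam_N (m : ℕ) : (fam m).N = 11 * m + 5 := rfl

end Pool.Agent.Helper25.DY
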